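import Pool.Agent.H88.NW.Def

/-!
MP_28b514: transport of systems, monotonicity, real and complex systems.
-/

set_option autoImplicit false

namespace Pool.Agent.H88.NW

open Finset

section general

variable {𝕜 : Type} [RCLike 𝕜]

/-- a system indexed by any finite types -/
theorem HasSys.of_family {ι κ : Type} [Fintype ι] [Fintype κ] {μ : ℝ}
    (g : ι → EuclideanSpace 𝕜 κ) (h1 : ∀ i, ‖g i‖ = 1)
    (h2 : ∀ i j, i ≠ j → ‖inner 𝕜 (g i) (g j)‖ ≤ μ) {n N : ℕ}
    (hn : Fintype.card κ ≤ n) (hN : N ≤ Fintype.card ι) : HasSys 𝕜 n N μ := by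
  classical
  obtain ⟨f⟩ : Nonempty (κ ↪ Fin n) := by
    apply Function.Embedding.nonempty_of_card_le
    simpa using hn
  obtain ⟨e⟩ : Nonempty (Fin N ↪ ι) := by
    apply Function.Embedding.nonempty_of_card_le
    simpa using hN
  let g' : ι → EuclideanSpace 𝕜 (Fin n) := fun i =>
    WithLp.toLp 2 (Function.extend f (fun x => g i x) (fun _ => 0))
  have happ : ∀ i a, g' i a = Function.extend f (fun x => g i x) (fun _ => 0) a := fun i a => rfl
  have hin : ∀ i j, inner 𝕜 (g' i) (g' j) = inner 𝕜 (g i) (g j) := by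
    intro i j
    rw [PiLp.inner_apply, PiLp.inner_apply]
    symm
    refine Finset.sum_of_injOn f (f.injective.injOn) (fun _ _ => by simp) ?_ ?_
    · intro a _ ha
      have ha' : ¬ ∃ x, f x = a := by
        rintro ⟨x, hx⟩
        exact ha ⟨x, by simp, hx⟩
      rw [happ, happ, Function.extend_apply' _ _ _ ha', inner_zero_left]
    · intro x _
      rw [happ, happ, f.injective.extend_apply, f.injective.extend_apply]
  refine ⟨fun k => g' (e k), fun k => ?_, fun k l hkl => ?_⟩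
  · have e1 : ((‖g' (e k)‖ : ℝ) : 𝕜) ^ 2 = ((‖g (e k)‖ : ℝ) : 𝕜) ^ 2 := by
      rw [← inner_self_eq_norm_sq_to_K, ← inner_self_eq_norm_sq_to_K, hin]
    have e2 : ‖g' (e k)‖ ^ 2 = ‖g (e k)‖ ^ 2 := by exact_mod_cast e1
    rw [h1] at e2
    nlinarith [norm_nonneg (g' (e k))]
  · rw [hin]
    exact h2 _ _ (fun h => hkl (e.injective h))

theorem HasSys.mono {n n' N N' : ℕ} {μ μ' : ℝ} (h : HasSys 𝕜 n N μ) (hn : n ≤ n')
    (hN : N' ≤ N) (hμ : μ ≤ μ') : HasSys 𝕜 n' N' μ' := by
  obtain ⟨g, h1, h2⟩ := h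
  exact HasSys.of_family g h1 (fun i j hij => (h2 i j hij).trans hμ) (by simpa using hn)
    (by simpa using hN)

theorem HasSys.basis (n : ℕ) {μ : ℝ} (hμ : 0 ≤ μ) : HasSys 𝕜 n n μ := by
  classical
  refine ⟨fun k => EuclideanSpace.single k 1, fun k => by simp, fun k l hkl => ?_⟩
  rw [EuclideanSpace.inner_single_left]
  simp [hkl, hμ]

theorem HasSys.zero (n : ℕ) {μ : ℝ} : HasSys 𝕜 n 0 μ :=
  ⟨fun k => k.elim0, fun k => k.elim0, fun k => k.elim0⟩

theorem le_NN {n N : ℕ} {μ B : ℝ} (h : HasSys 𝕜 n N μ)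
    (hB : ∀ N, HasSys 𝕜 n N μ → (N : ℝ) ≤ B) : N ≤ NN 𝕜 n μ := by
  refine le_csSup ⟨⌊B⌋₊, ?_⟩ h
  intro M hM
  exact Nat.le_floor (hB M hM)

theorem NN_le {n : ℕ} {μ B : ℝ}
    (hB : ∀ N, HasSys 𝕜 n N μ → (N : ℝ) ≤ B) : (NN 𝕜 n μ : ℝ) ≤ B := by
  have hmem := Nat.sSup_mem (s := {M : ℕ | HasSys 𝕜 n M μ}) ⟨0, HasSys.zero n⟩
    ⟨⌊B⌋₊, fun M hM => Nat.le_floor (hB M hM)⟩
  exact hB _ hmem

end general

/-- a real system is a complex system -/
theorem HasSys.toComplex {n N : ℕ} {μ : ℝ} (h : HasSys ℝ n N μ) : HasSys ℂ n N μ := by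
  obtain ⟨g, h1, h2⟩ := h
  let g' : Fin N → EuclideanSpace ℂ (Fin n) := fun k => WithLp.toLp 2 (fun a => ((g k a : ℝ) : ℂ))
  have hin : ∀ k l, inner ℂ (g' k) (g' l) = ((inner ℝ (g k) (g l) : ℝ) : ℂ) := by
    intro k l
    rw [PiLp.inner_apply, PiLp.inner_apply]
    push_cast
    refine sum_congr rfl fun a _ => ?_
    change inner ℂ ((g k a : ℝ) : ℂ) ((g l a : ℝ) : ℂ) = _
    rw [RCLike.inner_apply, RCLike.inner_apply, Complex.conj_ofReal]
    simp
  refine ⟨g', fun k => ?_, fun k l hkl => ?_⟩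
  · have e1 : ((‖g' k‖ : ℝ) : ℂ) ^ 2 = ((‖g k‖ : ℝ) : ℂ) ^ 2 := by
      have e3 := inner_self_eq_norm_sq_to_K (𝕜 := ℂ) (g' k)
      rw [hin, real_inner_self_eq_norm_sq] at e3
      rw [← Complex.ofReal_pow (‖g k‖) 2]
      exact e3.symm
    have e2 : ‖g' k‖ ^ 2 = ‖g k‖ ^ 2 := by exact_mod_cast e1
    rw [h1] at e2
    nlinarith [norm_nonneg (g' k)]
  · rw [hin, Complex.norm_real]
    exact h2 k l hkl

/-- a complex system gives a real system in twice the dimension -/
theorem HasSys.toReal {n N : ℕ} {μ : ℝ} (h : HasSys ℂ n N μ) : HasSys ℝ (2 * n) N μ := by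
  obtain ⟨g, h1, h2⟩ := h
  let g' : Fin N → EuclideanSpace ℝ (Fin n × Bool) := fun k =>
    WithLp.toLp 2 (fun a => if a.2 then (g k a.1).re else (g k a.1).im)
  have hin : ∀ k l, inner ℝ (g' k) (g' l) = (inner ℂ (g k) (g l)).re := by
    intro k l
    rw [PiLp.inner_apply, PiLp.inner_apply, Complex.re_sum, Fintype.sum_prod_type]
    refine sum_congr rfl fun a _ => ?_
    rw [Fintype.sum_bool]
    change inner ℝ (g k a).re (g l a).re + inner ℝ (g k a).im (g l a).im = _
    rw [RCLike.inner_apply, RCLike.inner_apply, RCLike.inner_apply, Complex.mul_re]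
    simp
  refine HasSys.of_family g' (fun k => ?_) (fun k l hkl => ?_) (by simp [mul_comm]) (by simp)
  · have e1 : ‖g' k‖ ^ 2 = ‖g k‖ ^ 2 := by
      rw [← real_inner_self_eq_norm_sq, hin]
      have e3 := inner_self_eq_norm_sq_to_K (𝕜 := ℂ) (g k)
      rw [e3]
      norm_cast
    rw [h1] at e1
    nlinarith [norm_nonneg (g' k)]
  · rw [hin, Real.norm_eq_abs]
    exact (Complex.abs_re_le_norm _).trans (h2 k l hkl)

/-- a complex system gives a real system in twice the dimension, with twice as many vectors -/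
theorem HasSys.toReal2 {n N : ℕ} {μ : ℝ} (h : HasSys ℂ n N μ) (hμ : 0 ≤ μ) :
    HasSys ℝ (2 * n) (2 * N) μ := by
  obtain ⟨g, h1, h2⟩ := h
  let g' : Fin N × Bool → EuclideanSpace ℝ (Fin n × Bool) := fun k =>
    WithLp.toLp 2 (fun a => if k.2 then (if a.2 then (g k.1 a.1).re else (g k.1 a.1).im) else
      (if a.2 then -(g k.1 a.1).im else (g k.1 a.1).re))
  have e0 : ∀ u v : EuclideanSpace ℂ (Fin n),
      inner ℂ u v = ∑ a, v a * (starRingEnd ℂ) (u a) := fun u v => by
    rw [PiLp.inner_apply]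
    rfl
  have hin : ∀ k l, (inner ℝ (g' k) (g' l) = if k.2 = l.2 then (inner ℂ (g k.1) (g l.1)).re else
      if k.2 then -(inner ℂ (g k.1) (g l.1)).im else (inner ℂ (g k.1) (g l.1)).im) := by
    rintro ⟨k, b⟩ ⟨l, c⟩
    rw [e0, PiLp.inner_apply, Complex.re_sum, Complex.im_sum, Fintype.sum_prod_type]
    cases b <;> cases c
    · simp only [if_true]
      refine sum_congr rfl fun a _ => ?_
      rw [Fintype.sum_bool]
      change inner ℝ (-(g k a).im) (-(g l a).im) + inner ℝ (g k a).re (g l a).re = _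
      rw [RCLike.inner_apply, RCLike.inner_apply, Complex.mul_re]
      simp
      ring
    · simp only [Bool.false_eq_true, if_false]
      refine sum_congr rfl fun a _ => ?_
      rw [Fintype.sum_bool]
      change inner ℝ (-(g k a).im) (g l a).re + inner ℝ (g k a).re (g l a).im = _
      rw [RCLike.inner_apply, RCLike.inner_apply, Complex.mul_im]
      simp
    · simp only [Bool.true_eq_false, if_false, if_true, ← sum_neg_distrib]
      refine sum_congr rfl fun a _ => ?_
      rw [Fintype.sum_bool]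
      change inner ℝ (g k a).re (-(g l a).im) + inner ℝ (g k a).im (g l a).re = _
      rw [RCLike.inner_apply, RCLike.inner_apply, Complex.mul_im]
      simp
    · simp only [if_true]
      refine sum_congr rfl fun a _ => ?_
      rw [Fintype.sum_bool]
      change inner ℝ (g k a).re (g l a).re + inner ℝ (g k a).im (g l a).im = _
      rw [RCLike.inner_apply, RCLike.inner_apply, Complex.mul_re]
      simp
  refine HasSys.of_family g' (fun k => ?_) (fun k l hkl => ?_) (by simp [mul_comm])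
    (by simp [mul_comm])
  · have e1 : ‖g' k‖ ^ 2 = ‖g k.1‖ ^ 2 := by
      rw [← real_inner_self_eq_norm_sq, hin, if_pos rfl]
      have e3 := inner_self_eq_norm_sq_to_K (𝕜 := ℂ) (g k.1)
      rw [e3]
      norm_cast
    rw [h1] at e1
    nlinarith [norm_nonneg (g' k)]
  · rw [hin, Real.norm_eq_abs]
    by_cases hk : k.1 = l.1
    · have hk2 : k.2 ≠ l.2 := fun h => hkl (Prod.ext hk h)
      rw [if_neg hk2, hk]
      have e3 := inner_self_eq_norm_sq_to_K (𝕜 := ℂ) (g l.1)
      have e4 : (inner ℂ (g l.1) (g l.1)).im = 0 := by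
        rw [e3, h1]
        simp
      rw [e4]
      simp [hμ]
    · have e5 := h2 k.1 l.1 hk
      by_cases hk2 : k.2 = l.2
      · rw [if_pos hk2]
        exact (Complex.abs_re_le_norm _).trans e5
      · rw [if_neg hk2]
        by_cases hk3 : k.2 = true
        · rw [if_pos hk3, abs_neg]
          exact (Complex.abs_im_le_norm _).trans e5
        · rw [if_neg hk3]
          exact (Complex.abs_im_le_norm _).trans e5

end Pool.Agent.H88.NW
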