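import Mathlib

/-!
MP_28b514: incoherent systems of unit vectors.  Definitions.
-/

set_option autoImplicit false

namespace Pool.Agent.H88.NW

/-- There is a normalized system of `N` vectors in `𝕜^n` with coherence at most `μ`. -/
def HasSys (𝕜 : Type) [RCLike 𝕜] (n N : ℕ) (μ : ℝ) : Prop :=
  ∃ g : Fin N → EuclideanSpace 𝕜 (Fin n), (∀ k, ‖g k‖ = 1) ∧
    ∀ k l, k ≠ l → ‖inner 𝕜 (g k) (g l)‖ ≤ μ

/-- The maximal size `N(n, μ)` of a normalized system in `𝕜^n` with coherence at most `μ`. -/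
noncomputable def NN (𝕜 : Type) [RCLike 𝕜] (n : ℕ) (μ : ℝ) : ℕ :=
  sSup {N : ℕ | HasSys 𝕜 n N μ}

end Pool.Agent.H88.NW
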