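import Mathlib
import Pool.Agent.H88.NW.Def
import Pool.Agent.H88.NW.Pad

/-!
MP_28b514: `p^2` vectors of `ℂ^p` with coherence `1/√p`, from quadratic Gauss sums.
-/

set_option autoImplicit false

namespace Pool.Agent.H88.NW

open Finset

private theorem char_sum0 {p : ℕ} [NeZero p] (t : ZMod p) (ht : t ≠ 0) :
    ∑ x : ZMod p, (ZMod.stdAddChar (t * x) : ℂ) = 0 :=
  AddChar.sum_eq_zero_of_ne_one (ZMod.isPrimitive_stdAddChar p ht)

private theorem char_conj0 {p : ℕ} [NeZero p] (a : ZMod p) :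
    (starRingEnd ℂ) (ZMod.stdAddChar a) = ZMod.stdAddChar (-a) := by
  rw [AddChar.map_neg_eq_conj]

/-- quadratic Gauss sums -/
private theorem gauss_sum {p : ℕ} [Fact p.Prime] (h2 : p ≠ 2) (c d : ZMod p) (hc : c ≠ 0) :
    ‖∑ x : ZMod p, (ZMod.stdAddChar (c * x ^ 2 + d * x) : ℂ)‖ ^ 2 = (p : ℝ) := by
  have h20 : (2 : ZMod p) ≠ 0 := by
    intro h
    have h1 : ((2 : ℕ) : ZMod p) = 0 := by exact_mod_cast h
    rw [ZMod.natCast_eq_zero_iff] at h1
    exact h2 ((Nat.prime_dvd_prime_iff_eq Fact.out Nat.prime_two).1 h1)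
  have h1 : (((‖∑ x : ZMod p, (ZMod.stdAddChar (c * x ^ 2 + d * x) : ℂ)‖ ^ 2 : ℝ)) : ℂ) = p := by
    rw [Complex.ofReal_pow, ← Complex.mul_conj', map_sum, Finset.sum_mul_sum, Finset.sum_comm]
    have h3 : ∀ y ∈ (Finset.univ : Finset (ZMod p)),
        ∑ x : ZMod p, (ZMod.stdAddChar (c * x ^ 2 + d * x) : ℂ) *
          (starRingEnd ℂ) (ZMod.stdAddChar (c * y ^ 2 + d * y)) =
        ∑ h : ZMod p, ZMod.stdAddChar (c * h ^ 2 + d * h) * ZMod.stdAddChar ((2 * c * h) * y) := by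
      intro y _
      rw [← Equiv.sum_comp (Equiv.addRight y)]
      refine Finset.sum_congr rfl fun h _ => ?_
      rw [char_conj0, ← AddChar.map_add_eq_mul, ← AddChar.map_add_eq_mul]
      congr 1
      simp only [Equiv.coe_addRight]
      ring
    rw [Finset.sum_congr rfl h3, Finset.sum_comm]
    have h4 : ∀ h ∈ (Finset.univ : Finset (ZMod p)),
        ∑ y : ZMod p, (ZMod.stdAddChar (c * h ^ 2 + d * h) : ℂ) *
          ZMod.stdAddChar ((2 * c * h) * y) = if h = 0 then (p : ℂ) else 0 := by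
      intro h _
      rw [← Finset.mul_sum]
      by_cases hh : h = 0
      · subst hh
        simp [ZMod.card]
      · rw [char_sum0 _ (mul_ne_zero (mul_ne_zero h20 hc) hh), mul_zero, if_neg hh]
    rw [Finset.sum_congr rfl h4, Finset.sum_ite_eq' Finset.univ (0 : ZMod p),
      if_pos (Finset.mem_univ _)]
  exact_mod_cast h1

/-- **`p^2` vectors in `ℂ^p`.** -/
theorem gauss (p : ℕ) (hp : p.Prime) (h2 : p ≠ 2) : HasSys ℂ p (p ^ 2) (1 / Real.sqrt p) := by
  classical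
  have : Fact p.Prime := ⟨hp⟩
  have hp0 : (0 : ℝ) < p := by exact_mod_cast hp.pos
  let c : ℝ := (Real.sqrt p)⁻¹
  have hc2 : c * c = (p : ℝ)⁻¹ := by
    simp only [c]; rw [← mul_inv, Real.mul_self_sqrt hp0.le]
  let g : ZMod p × ZMod p → EuclideanSpace ℂ (ZMod p) := fun a =>
    WithLp.toLp 2 fun x => (c : ℂ) * ZMod.stdAddChar (a.1 * x ^ 2 + a.2 * x)
  have hin : ∀ a b, inner ℂ (g a) (g b) = (((p : ℝ)⁻¹ : ℝ) : ℂ) *
      ∑ x : ZMod p, (ZMod.stdAddChar ((b.1 - a.1) * x ^ 2 + (b.2 - a.2) * x) : ℂ) := by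
    intro a b
    rw [PiLp.inner_apply, Finset.mul_sum]
    refine Finset.sum_congr rfl fun x _ => ?_
    rw [RCLike.inner_apply]
    simp only [g]
    rw [map_mul, char_conj0, Complex.conj_ofReal, ← hc2]
    have h1 : (ZMod.stdAddChar ((b.1 - a.1) * x ^ 2 + (b.2 - a.2) * x) : ℂ) =
        ZMod.stdAddChar (b.1 * x ^ 2 + b.2 * x) * ZMod.stdAddChar (-(a.1 * x ^ 2 + a.2 * x)) := by
      rw [← AddChar.map_add_eq_mul]
      congr 1; ring
    rw [h1]
    push_cast; ring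
  refine HasSys.of_family g (fun a => ?_) (fun a b hab => ?_) (by rw [ZMod.card])
    (by rw [Fintype.card_prod, ZMod.card, sq])
  · have h1 := inner_self_eq_norm_sq_to_K (𝕜 := ℂ) (g a)
    rw [hin] at h1
    simp only [sub_self, zero_mul, add_zero, AddChar.map_zero_eq_one, Finset.sum_const,
      Finset.card_univ, ZMod.card, nsmul_eq_mul, mul_one] at h1
    have h3 : (((p : ℝ)⁻¹ : ℝ) : ℂ) * (p : ℂ) = 1 := by
      push_cast
      exact inv_mul_cancel₀ (by exact_mod_cast hp0.ne')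
    rw [h3] at h1
    have h4 : (1 : ℝ) = ‖g a‖ ^ 2 := by
      have h5 : ((1 : ℝ) : ℂ) = ((‖g a‖ ^ 2 : ℝ) : ℂ) := by
        rw [Complex.ofReal_pow, Complex.ofReal_one]
        exact h1
      exact Complex.ofReal_injective h5
    nlinarith [norm_nonneg (g a)]
  · rw [hin, norm_mul, Complex.norm_real, Real.norm_eq_abs, abs_of_pos (inv_pos.2 hp0)]
    by_cases h1 : a.1 = b.1
    · have h3 : b.2 - a.2 ≠ 0 := fun h => hab (Prod.ext h1 (sub_eq_zero.1 h).symm)
      rw [h1]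
      simp only [sub_self, zero_mul, zero_add]
      rw [char_sum0 _ h3, norm_zero, mul_zero]
      positivity
    · have h3 := gauss_sum h2 (b.1 - a.1) (b.2 - a.2) (sub_ne_zero.2 (Ne.symm h1))
      have h4 : ‖∑ x : ZMod p, (ZMod.stdAddChar ((b.1 - a.1) * x ^ 2 + (b.2 - a.2) * x) : ℂ)‖ =
          Real.sqrt p := by
        rw [← h3, Real.sqrt_sq (norm_nonneg _)]
      rw [h4]
      have h5 : Real.sqrt p * Real.sqrt p = p := Real.mul_self_sqrt hp0.le
      have h6 : 0 < Real.sqrt p := Real.sqrt_pos.2 hp0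
      apply le_of_eq
      rw [eq_div_iff h6.ne', mul_assoc, h5, inv_mul_cancel₀ hp0.ne']

end Pool.Agent.H88.NW
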