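import Pool.Agent.H88.NW.Def

/-!
MP_28b514: the linear programming bounds of degree two (Levenshtein, Delsarte-Goethals-Seidel).
In an eigenbasis of `S = ∑ g_k g_k^*` only the entries `q a b = ∑_k |u_a|^2 |u_b|^2` of the
tensor `∑ u ⊗ u ⊗ u^* ⊗ u^*` are needed.
-/

set_option autoImplicit false

namespace Pool.Agent.H88.NW

open Finset

private theorem sum4_comm {κ ι M : Type} [Fintype κ] [Fintype ι] [AddCommMonoid M]
    (f : κ → κ → ι → ι → M) :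
    ∑ k, ∑ l, ∑ i, ∑ j, f k l i j = ∑ j, ∑ i, ∑ k, ∑ l, f k l i j := by
  calc ∑ k, ∑ l, ∑ i, ∑ j, f k l i j = ∑ k, ∑ i, ∑ l, ∑ j, f k l i j :=
        sum_congr rfl fun k _ => sum_comm
    _ = ∑ k, ∑ i, ∑ j, ∑ l, f k l i j :=
        sum_congr rfl fun k _ => sum_congr rfl fun i _ => sum_comm
    _ = ∑ k, ∑ j, ∑ i, ∑ l, f k l i j := sum_congr rfl fun k _ => sum_comm
    _ = ∑ j, ∑ k, ∑ i, ∑ l, f k l i j := sum_comm
    _ = ∑ j, ∑ i, ∑ k, ∑ l, f k l i j := sum_congr rfl fun j _ => sum_comm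

/-- the two Gram matrices of a family have the same Frobenius norm -/
private theorem gram_swap {𝕜 ι κ : Type} [RCLike 𝕜] [Fintype ι] [Fintype κ] (F : κ → ι → 𝕜) :
    ∑ k, ∑ l, ‖∑ i, (starRingEnd 𝕜) (F k i) * F l i‖ ^ 2 =
      ∑ i, ∑ j, ‖∑ k, F k i * (starRingEnd 𝕜) (F k j)‖ ^ 2 := by
  have e1 : ∀ z : 𝕜, ((‖z‖ ^ 2 : ℝ) : 𝕜) = z * (starRingEnd 𝕜) z := by
    intro z
    rw [RCLike.mul_conj]
    push_cast
    rfl
  have h : ((∑ k, ∑ l, ‖∑ i, (starRingEnd 𝕜) (F k i) * F l i‖ ^ 2 : ℝ) : 𝕜) =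
      ((∑ i, ∑ j, ‖∑ k, F k i * (starRingEnd 𝕜) (F k j)‖ ^ 2 : ℝ) : 𝕜) := by
    simp only [e1, map_sum, map_mul, RCLike.conj_conj, sum_mul_sum]
    rw [sum4_comm]
    refine sum_congr rfl fun i _ => sum_congr rfl fun j _ => sum_congr rfl fun k _ =>
      sum_congr rfl fun l _ => ?_
    ring
  exact RCLike.ofReal_injective h

/-- coordinates in an eigenbasis of `∑ g_k g_k^*` -/
private theorem diag_basis {𝕜 : Type} [RCLike 𝕜] {n N : ℕ}
    (g : Fin N → EuclideanSpace 𝕜 (Fin n)) :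
    ∃ u : Fin N → Fin n → 𝕜,
      (∀ k l, inner 𝕜 (g k) (g l) = ∑ a, (starRingEnd 𝕜) (u k a) * u l a) ∧
      ∀ a c, a ≠ c → ∑ k, u k a * (starRingEnd 𝕜) (u k c) = 0 := by
  let S : EuclideanSpace 𝕜 (Fin n) →ₗ[𝕜] EuclideanSpace 𝕜 (Fin n) :=
    { toFun := fun v => ∑ k, (inner 𝕜 (g k) v) • g k
      map_add' := by
        intro v w
        rw [← sum_add_distrib]
        refine sum_congr rfl fun k _ => ?_
        rw [inner_add_right, add_smul]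
      map_smul' := by
        intro c v
        rw [RingHom.id_apply, smul_sum]
        refine sum_congr rfl fun k _ => ?_
        rw [inner_smul_right, mul_smul] }
  have hS' : ∀ v, S v = ∑ k, (inner 𝕜 (g k) v) • g k := fun v => rfl
  have hS : S.IsSymmetric := by
    intro v w
    rw [hS', hS', sum_inner, inner_sum]
    refine sum_congr rfl fun k _ => ?_
    rw [inner_smul_left, inner_smul_right, inner_conj_symm]
    ring
  have hn : Module.finrank 𝕜 (EuclideanSpace 𝕜 (Fin n)) = n := by simp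
  let b := hS.eigenvectorBasis hn
  refine ⟨fun k a => inner 𝕜 (b a) (g k), ?_, ?_⟩
  · intro k l
    have h1 := b.sum_inner_mul_inner (g k) (g l)
    rw [← h1]
    refine sum_congr rfl fun a _ => ?_
    rw [inner_conj_symm]
  · intro a c hac
    have h1 : inner 𝕜 (b a) (S (b c)) = 0 := by
      have h2 : S (b c) = (hS.eigenvalues hn c : 𝕜) • b c := hS.apply_eigenvectorBasis hn c
      rw [h2, inner_smul_right, b.orthonormal.inner_eq_zero hac, mul_zero]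
    rw [hS', inner_sum] at h1
    rw [← h1]
    refine sum_congr rfl fun k _ => ?_
    rw [inner_smul_right, inner_conj_symm]
    ring

/-- the algebra of the bound -/
private theorem alg {n : ℕ} {κ : ℝ} (hκ : 1 ≤ κ) (q : Fin n → Fin n → ℝ)
    (hq : ∀ a b, q a b = q b a) (s : Fin n → ℝ) (hs : ∀ a, ∑ b, q a b = s a) (m : Fin n → ℝ) :
    2 * ∑ a, m a * s a - ((n + 2 * κ - 2) * ∑ a, m a ^ 2 + (∑ a, m a) ^ 2) / (2 * κ) ≤
      κ * ∑ a, ∑ b, q a b ^ 2 - (κ - 1) * ∑ a, q a a ^ 2 := by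
  have hκ0 : (0 : ℝ) < κ := by linarith
  have hZ : 0 ≤ κ * (∑ a, ∑ b, (if a = b then 0 else (q a b - (m a + m b) / (2 * κ)) ^ 2)) +
      ∑ a, (q a a - m a) ^ 2 := by
    refine add_nonneg (mul_nonneg hκ0.le (sum_nonneg fun a _ => sum_nonneg fun b _ => ?_))
      (sum_nonneg fun a _ => sq_nonneg _)
    split_ifs
    · exact le_rfl
    · exact sq_nonneg _
  have h1 : ∑ a, ∑ b, (if a = b then 0 else (q a b - (m a + m b) / (2 * κ)) ^ 2) =
      ∑ a, ∑ b, (q a b - (m a + m b) / (2 * κ)) ^ 2 - ∑ a, (q a a - (m a + m a) / (2 * κ)) ^ 2 := by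
    rw [← sum_sub_distrib]
    refine sum_congr rfl fun a _ => ?_
    have e1 : ∀ b, (if a = b then 0 else (q a b - (m a + m b) / (2 * κ)) ^ 2) =
        (q a b - (m a + m b) / (2 * κ)) ^ 2 -
        (if a = b then (q a b - (m a + m b) / (2 * κ)) ^ 2 else 0) := by
      intro b
      split_ifs <;> ring
    rw [sum_congr rfl fun b _ => e1 b, sum_sub_distrib, sum_ite_eq]
    simp
  have h2 : ∑ a, ∑ b, (q a b - (m a + m b) / (2 * κ)) ^ 2 = ∑ a, ∑ b, q a b ^ 2 -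
      (2 * ∑ a, m a * s a) / κ + (2 * n * ∑ a, m a ^ 2 + 2 * (∑ a, m a) ^ 2) / (4 * κ ^ 2) := by
    have e1 : ∀ a b, (q a b - (m a + m b) / (2 * κ)) ^ 2 = q a b ^ 2 -
        (m a * q a b + m b * q b a) / κ + (m a ^ 2 + m b ^ 2 + 2 * (m a * m b)) / (4 * κ ^ 2) := by
      intro a b
      rw [hq b a]
      field_simp
      ring
    have e2 : ∑ a, ∑ b, m a * q a b = ∑ a, m a * s a := by
      refine sum_congr rfl fun a _ => ?_
      rw [← mul_sum, hs]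
    have e3 : ∑ a, ∑ b, m b * q b a = ∑ a, m a * s a := by
      rw [sum_comm]
      exact e2
    have e4 : ∑ a : Fin n, ∑ b : Fin n, m a * m b = (∑ a, m a) ^ 2 := by
      rw [sq, sum_mul_sum]
    have e5 : ∑ a : Fin n, ∑ _b : Fin n, m a ^ 2 = n * ∑ a, m a ^ 2 := by
      rw [mul_sum]
      refine sum_congr rfl fun a _ => ?_
      simp
    have e6 : ∑ _a : Fin n, ∑ b : Fin n, m b ^ 2 = n * ∑ a, m a ^ 2 := by
      simp
    have e7 : ∑ a, ∑ b, (q a b ^ 2 - (m a * q a b + m b * q b a) / κ +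
        (m a ^ 2 + m b ^ 2 + 2 * (m a * m b)) / (4 * κ ^ 2)) =
        ∑ a, ∑ b, q a b ^ 2 - (∑ a, ∑ b, m a * q a b + ∑ a, ∑ b, m b * q b a) / κ +
        (∑ a : Fin n, ∑ _b : Fin n, m a ^ 2 + ∑ _a : Fin n, ∑ b : Fin n, m b ^ 2 +
          2 * ∑ a : Fin n, ∑ b : Fin n, m a * m b) / (4 * κ ^ 2) := by
      simp only [sum_add_distrib, sum_sub_distrib, add_div, mul_sum, sum_div]
    rw [sum_congr rfl fun a _ => sum_congr rfl fun b _ => e1 a b, e7, e2, e3, e4, e5, e6]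
    ring
  have h3 : ∑ a, (q a a - (m a + m a) / (2 * κ)) ^ 2 = ∑ a, q a a ^ 2 - (2 * ∑ a, q a a * m a) / κ
      + (∑ a, m a ^ 2) / κ ^ 2 := by
    have e1 : ∀ a, (q a a - (m a + m a) / (2 * κ)) ^ 2 = q a a ^ 2 - 2 * (q a a * m a) / κ +
        m a ^ 2 / κ ^ 2 := by
      intro a
      field_simp
      ring
    rw [sum_congr rfl fun a _ => e1 a, sum_add_distrib, sum_sub_distrib, ← sum_div, ← sum_div,
      ← mul_sum]
  have h4 : ∑ a, (q a a - m a) ^ 2 = ∑ a, q a a ^ 2 - 2 * ∑ a, q a a * m a + ∑ a, m a ^ 2 := by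
    have e1 : ∀ a, (q a a - m a) ^ 2 = q a a ^ 2 - 2 * (q a a * m a) + m a ^ 2 := by
      intro a
      ring
    rw [sum_congr rfl fun a _ => e1 a, sum_add_distrib, sum_sub_distrib, ← mul_sum]
  rw [h1, h2, h3, h4] at hZ
  set A := ∑ a, ∑ b, q a b ^ 2
  set B := ∑ a, q a a ^ 2
  set D := ∑ a, q a a * m a
  set X := ∑ a, m a * s a
  set Y := ∑ a, m a ^ 2
  set W := ∑ a, m a
  have h5 : κ * (A - 2 * X / κ + (2 * n * Y + 2 * W ^ 2) / (4 * κ ^ 2) -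
      (B - 2 * D / κ + Y / κ ^ 2)) + (B - 2 * D + Y) =
      κ * A - (κ - 1) * B - (2 * X - ((n + 2 * κ - 2) * Y + W ^ 2) / (2 * κ)) := by
    field_simp
    ring
  rw [h5] at hZ
  linarith

private theorem pat_pair {𝕜 : Type} [RCLike 𝕜] {n N : ℕ} (u : Fin N → Fin n → 𝕜) (a b : Fin n) :
    (if a = b then (∑ k, ‖u k a‖ ^ 2 * ‖u k a‖ ^ 2) ^ 2 else
      2 * (∑ k, ‖u k a‖ ^ 2 * ‖u k b‖ ^ 2) ^ 2) ≤
    ∑ j : Fin n × Fin n, ‖∑ k, (u k a * u k b) * (starRingEnd 𝕜) (u k j.1 * u k j.2)‖ ^ 2 := by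
  have e1 : ∀ c d, ‖∑ k, (u k c * u k d) * (starRingEnd 𝕜) (u k c * u k d)‖ ^ 2 =
      (∑ k, ‖u k c‖ ^ 2 * ‖u k d‖ ^ 2) ^ 2 := by
    intro c d
    have e2 : ∑ k, (u k c * u k d) * (starRingEnd 𝕜) (u k c * u k d) =
        ((∑ k, ‖u k c‖ ^ 2 * ‖u k d‖ ^ 2 : ℝ) : 𝕜) := by
      push_cast
      refine sum_congr rfl fun k _ => ?_
      rw [RCLike.mul_conj, norm_mul]
      push_cast
      ring
    rw [e2, RCLike.norm_ofReal, sq_abs]
  by_cases hab : a = b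
  · subst hab
    have e3 : ∑ j ∈ ({(a, a)} : Finset (Fin n × Fin n)),
        ‖∑ k, (u k a * u k a) * (starRingEnd 𝕜) (u k j.1 * u k j.2)‖ ^ 2 =
        (∑ k, ‖u k a‖ ^ 2 * ‖u k a‖ ^ 2) ^ 2 := by
      rw [sum_singleton, e1 a a]
    rw [if_pos rfl, ← e3]
    exact sum_le_sum_of_subset_of_nonneg (subset_univ _) fun j _ _ => sq_nonneg _
  · rw [if_neg hab, two_mul]
    have hne : ((a, b) : Fin n × Fin n) ≠ (b, a) := by
      intro h
      exact hab (Prod.mk.inj h).1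
    have e3 : ∑ j ∈ ({(a, b), (b, a)} : Finset (Fin n × Fin n)),
        ‖∑ k, (u k a * u k b) * (starRingEnd 𝕜) (u k j.1 * u k j.2)‖ ^ 2 =
        (∑ k, ‖u k a‖ ^ 2 * ‖u k b‖ ^ 2) ^ 2 + (∑ k, ‖u k a‖ ^ 2 * ‖u k b‖ ^ 2) ^ 2 := by
      rw [sum_pair hne]
      dsimp only
      rw [e1 a b]
      have e4 : ∑ k, (u k a * u k b) * (starRingEnd 𝕜) (u k b * u k a) =
          ∑ k, (u k a * u k b) * (starRingEnd 𝕜) (u k a * u k b) := by
        refine sum_congr rfl fun k _ => ?_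
        rw [mul_comm (u k b) (u k a)]
      rw [e4, e1 a b]
    rw [← e3]
    exact sum_le_sum_of_subset_of_nonneg (subset_univ _) fun j _ _ => sq_nonneg _

private theorem pat_real {n N : ℕ} (u : Fin N → Fin n → ℝ) (a b : Fin n) :
    (if a = b then ∑ c, (∑ k, ‖u k a‖ ^ 2 * ‖u k c‖ ^ 2) ^ 2 else
      2 * (∑ k, ‖u k a‖ ^ 2 * ‖u k b‖ ^ 2) ^ 2) ≤
    ∑ j : Fin n × Fin n, ‖∑ k, (u k a * u k b) * (starRingEnd ℝ) (u k j.1 * u k j.2)‖ ^ 2 := by
  by_cases hab : a = b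
  · subst hab
    rw [if_pos rfl]
    have e1 : ∀ c, (∑ k, ‖u k a‖ ^ 2 * ‖u k c‖ ^ 2) ^ 2 =
        ‖∑ k, (u k a * u k a) * (starRingEnd ℝ) (u k c * u k c)‖ ^ 2 := by
      intro c
      rw [Real.norm_eq_abs, sq_abs]
      congr 1
      refine sum_congr rfl fun k _ => ?_
      simp only [Real.norm_eq_abs, sq_abs, conj_trivial]
      ring
    rw [sum_congr rfl fun c _ => e1 c]
    have e2 : ∑ c, ‖∑ k, (u k a * u k a) * (starRingEnd ℝ) (u k c * u k c)‖ ^ 2 =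
        ∑ j ∈ (univ : Finset (Fin n)).image (fun c => ((c, c) : Fin n × Fin n)),
          ‖∑ k, (u k a * u k a) * (starRingEnd ℝ) (u k j.1 * u k j.2)‖ ^ 2 := by
      rw [sum_image]
      intro c _ d _ h
      exact (Prod.mk.inj h).1
    rw [e2]
    exact sum_le_sum_of_subset_of_nonneg (subset_univ _) fun j _ _ => sq_nonneg _
  · have h1 := pat_pair u a b
    rw [if_neg hab] at h1 ⊢
    exact h1

private theorem sum_diag {n : ℕ} (f : Fin n → ℝ) (h : Fin n → Fin n → ℝ) :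
    ∑ a, ∑ b, (if a = b then f a else 2 * h a b) =
      ∑ a, f a + 2 * ∑ a, ∑ b, h a b - 2 * ∑ a, h a a := by
  have e1 : ∀ a b, (if a = b then f a else 2 * h a b) =
      2 * h a b + (if a = b then (f a - 2 * h a b) else 0) := by
    intro a b
    split_ifs <;> ring
  rw [sum_congr rfl fun a _ => sum_congr rfl fun b _ => e1 a b]
  simp only [sum_add_distrib, sum_ite_eq, mem_univ, if_true, sum_sub_distrib, ← mul_sum]
  ring

/-- the abstract bound, `κ = 2` over `ℂ` and `κ = 3` over `ℝ` -/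
private theorem lev_gen {𝕜 : Type} [RCLike 𝕜] {n N : ℕ} {μ κ : ℝ} (h : HasSys 𝕜 n N μ)
    (hκ : 1 ≤ κ) (hn : 1 ≤ n) (hμ : μ ^ 2 * (n + 2 * κ - 2) ≤ 2 * κ)
    (hpat : ∀ u : Fin N → Fin n → 𝕜,
      κ * ∑ a, ∑ b, (∑ k, ‖u k a‖ ^ 2 * ‖u k b‖ ^ 2) ^ 2
        - (κ - 1) * ∑ a, (∑ k, ‖u k a‖ ^ 2 * ‖u k a‖ ^ 2) ^ 2 ≤
      ∑ i : Fin n × Fin n, ∑ j : Fin n × Fin n, ‖∑ k, (u k i.1 * u k i.2) *
        (starRingEnd 𝕜) (u k j.1 * u k j.2)‖ ^ 2) :
    (N : ℝ) * (κ - (n + κ - 1) * μ ^ 2) ≤ n * (n + κ - 1) := by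
  obtain ⟨g, hg1, hg2⟩ := h
  obtain ⟨u, hu1, hu2⟩ := diag_basis g
  have hn' : (1 : ℝ) ≤ n := by exact_mod_cast hn
  rcases Nat.eq_zero_or_pos N with h0 | hN
  · subst h0
    simp only [Nat.cast_zero, zero_mul]
    have : (0 : ℝ) ≤ n + κ - 1 := by linarith
    positivity
  have hN' : (0 : ℝ) < N := by exact_mod_cast hN
  -- the unit norms
  have hu3 : ∀ k, ∑ a, ‖u k a‖ ^ 2 = 1 := by
    intro k
    have h1 := hu1 k k
    rw [inner_self_eq_norm_sq_to_K, hg1] at h1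
    have h2 : ((1 : ℝ) : 𝕜) = ((∑ a, ‖u k a‖ ^ 2 : ℝ) : 𝕜) := by
      push_cast at h1 ⊢
      rw [one_pow] at h1
      rw [h1]
      refine sum_congr rfl fun a _ => ?_
      rw [RCLike.conj_mul]
    exact (RCLike.ofReal_injective h2).symm
  set q : Fin n → Fin n → ℝ := fun a b => ∑ k, ‖u k a‖ ^ 2 * ‖u k b‖ ^ 2 with hqdef
  set s : Fin n → ℝ := fun a => ∑ k, ‖u k a‖ ^ 2 with hsdef
  have hqs : ∀ a, ∑ b, q a b = s a := by
    intro a
    rw [hqdef, sum_comm]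
    refine sum_congr rfl fun k _ => ?_
    rw [← mul_sum, hu3, mul_one]
  have hq : ∀ a b, q a b = q b a := by
    intro a b
    refine sum_congr rfl fun k _ => mul_comm _ _
  have hsN : ∑ a, s a = N := by
    rw [hsdef, sum_comm, sum_congr rfl fun k _ => hu3 k]
    simp
  -- the second moments
  have hS2 : ∑ k, ∑ l, ‖inner 𝕜 (g k) (g l)‖ ^ 2 = ∑ a, s a ^ 2 := by
    have h1 := gram_swap u
    have h2 : ∀ k l, ‖inner 𝕜 (g k) (g l)‖ ^ 2 =
        ‖∑ i, (starRingEnd 𝕜) (u k i) * u l i‖ ^ 2 := fun k l => by rw [hu1]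
    rw [sum_congr rfl fun k _ => sum_congr rfl fun l _ => h2 k l, h1]
    refine sum_congr rfl fun a _ => ?_
    rw [sum_eq_single a]
    · have h3 : ∑ k, u k a * (starRingEnd 𝕜) (u k a) = ((s a : ℝ) : 𝕜) := by
        rw [hsdef]
        push_cast
        refine sum_congr rfl fun k _ => ?_
        rw [RCLike.mul_conj]
      rw [h3, RCLike.norm_ofReal, sq_abs]
    · intro c _ hc
      rw [hu2 a c hc.symm]
      simp
    · intro h; exact absurd (mem_univ a) h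
  have hS4 : κ * ∑ a, ∑ b, q a b ^ 2 - (κ - 1) * ∑ a, q a a ^ 2 ≤
      ∑ k, ∑ l, (‖inner 𝕜 (g k) (g l)‖ ^ 2) ^ 2 := by
    have h1 := gram_swap (fun (k : Fin N) (i : Fin n × Fin n) => u k i.1 * u k i.2)
    refine (hpat u).trans (le_of_eq ?_)
    rw [← h1]
    refine sum_congr rfl fun k _ => sum_congr rfl fun l _ => ?_
    rw [hu1, Fintype.sum_prod_type]
    have h2 : ∑ a, ∑ b, (starRingEnd 𝕜) (u k a * u k b) * (u l a * u l b) =
        (∑ a, (starRingEnd 𝕜) (u k a) * u l a) ^ 2 := by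
      rw [sq, sum_mul_sum]
      refine sum_congr rfl fun a _ => sum_congr rfl fun b _ => ?_
      rw [map_mul]
      ring
    rw [h2, norm_pow]
  -- the upper bound
  have hup : ∑ k, ∑ l, (‖inner 𝕜 (g k) (g l)‖ ^ 2) ^ 2 -
      μ ^ 2 * ∑ k, ∑ l, ‖inner 𝕜 (g k) (g l)‖ ^ 2 ≤ N := by
    rw [mul_sum, ← sum_sub_distrib]
    have h1 : ∀ k, ∑ l, (‖inner 𝕜 (g k) (g l)‖ ^ 2) ^ 2 -
        μ ^ 2 * ∑ l, ‖inner 𝕜 (g k) (g l)‖ ^ 2 ≤ 1 := by
      intro k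
      rw [mul_sum, ← sum_sub_distrib, ← sum_erase_add _ _ (mem_univ k)]
      have h2 : ∑ l ∈ univ.erase k, ((‖inner 𝕜 (g k) (g l)‖ ^ 2) ^ 2 -
          μ ^ 2 * ‖inner 𝕜 (g k) (g l)‖ ^ 2) ≤ 0 := by
        refine sum_nonpos fun l hl => ?_
        have h3 := hg2 k l (ne_of_mem_erase hl).symm
        have h4 := norm_nonneg (inner 𝕜 (g k) (g l))
        have h5 : ‖inner 𝕜 (g k) (g l)‖ ^ 2 ≤ μ ^ 2 := pow_le_pow_left₀ h4 h3 2
        nlinarith [sq_nonneg ‖inner 𝕜 (g k) (g l)‖]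
      have h6 : ‖inner 𝕜 (g k) (g k)‖ = 1 := by
        rw [inner_self_eq_norm_sq_to_K, hg1]
        simp
      rw [h6]
      nlinarith [sq_nonneg μ]
    calc _ ≤ ∑ _k : Fin N, (1 : ℝ) := sum_le_sum fun k _ => h1 k
      _ = N := by simp
  rw [hS2] at hup
  -- the choice of `m`
  set ρ : ℝ := 2 * κ / (n + 2 * κ - 2) with hρ
  have hd : (0 : ℝ) < n + 2 * κ - 2 := by linarith
  have hρμ : μ ^ 2 ≤ ρ := by
    rw [hρ, le_div_iff₀ hd]
    exact hμ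
  have hd2 : (0 : ℝ) < n + κ - 1 := by linarith
  set γ : ℝ := κ * N / (n * (n + κ - 1)) with hγ
  have hal := alg hκ q hq s hqs (fun a => ρ * (s a - N / n) + γ)
  have e1 : ∑ a, (ρ * (s a - N / n) + γ) * s a = ρ * (∑ a, s a ^ 2 - N ^ 2 / n) + γ * N := by
    have e2 : ∀ a, (ρ * (s a - N / n) + γ) * s a = ρ * s a ^ 2 + (γ - ρ * (N / n)) * s a := by
      intro a; ring
    rw [sum_congr rfl fun a _ => e2 a, sum_add_distrib, ← mul_sum, ← mul_sum, hsN]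
    ring
  have e2 : ∑ a, (ρ * (s a - N / n) + γ) = n * γ := by
    rw [sum_add_distrib, ← mul_sum, sum_sub_distrib, hsN]
    simp
    field_simp
    simp
  have e3 : ∑ a, (ρ * (s a - N / n) + γ) ^ 2 = ρ ^ 2 * (∑ a, s a ^ 2 - N ^ 2 / n) + n * γ ^ 2 := by
    have e4 : ∀ a, (ρ * (s a - N / n) + γ) ^ 2 = ρ ^ 2 * s a ^ 2 +
        (2 * ρ * γ - 2 * ρ ^ 2 * (N / n)) * s a + (ρ * (N / n) - γ) ^ 2 := by
      intro a; ring
    rw [sum_congr rfl fun a _ => e4 a, sum_add_distrib, sum_add_distrib, ← mul_sum, ← mul_sum,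
      hsN]
    simp only [sum_const, card_univ, Fintype.card_fin, nsmul_eq_mul]
    field_simp
    ring
  rw [e1, e2, e3] at hal
  set Q := ∑ a, s a ^ 2 with hQ
  have hQN : N ^ 2 / n ≤ Q := by
    rw [div_le_iff₀ (by linarith)]
    have h1 := sq_sum_le_card_mul_sum_sq (s := (univ : Finset (Fin n))) (f := s)
    rw [hsN, card_univ, Fintype.card_fin] at h1
    linarith
  have h7 := hal.trans hS4
  have h8 : 2 * (ρ * (Q - N ^ 2 / n) + γ * N) - ((n + 2 * κ - 2) * (ρ ^ 2 * (Q - N ^ 2 / n) +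
      n * γ ^ 2) + (n * γ) ^ 2) / (2 * κ) = ρ * (Q - N ^ 2 / n) + κ * N ^ 2 / (n * (n + κ - 1)) := by
    have f1 : (n + 2 * κ - 2) * ρ = 2 * κ := by
      rw [hρ]; field_simp
    have f2 : γ * (n * (n + κ - 1)) = κ * N := by
      rw [hγ]; field_simp
    have f3 : (n + 2 * κ - 2) * (ρ ^ 2 * (Q - N ^ 2 / n) + n * γ ^ 2) + (n * γ) ^ 2 =
        (2 * κ) * (ρ * (Q - N ^ 2 / n) + γ * N) := by
      calc (n + 2 * κ - 2) * (ρ ^ 2 * (Q - N ^ 2 / n) + n * γ ^ 2) + (n * γ) ^ 2 =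
            ((n + 2 * κ - 2) * ρ) * ρ * (Q - N ^ 2 / n) + 2 * γ * (γ * (n * (n + κ - 1))) := by
              ring
        _ = (2 * κ) * (ρ * (Q - N ^ 2 / n) + γ * N) := by rw [f1, f2]; ring
    have f4 : κ * N ^ 2 / (n * (n + κ - 1)) = γ * N := by
      rw [hγ]; field_simp
    rw [f3, f4, mul_div_cancel_left₀ _ (by positivity)]
    ring
  rw [h8] at h7
  have h9 : (μ ^ 2) * (Q - N ^ 2 / n) ≤ ρ * (Q - N ^ 2 / n) :=
    mul_le_mul_of_nonneg_right hρμ (by linarith)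
  have h10 : κ * N ^ 2 / (n * (n + κ - 1)) - μ ^ 2 * (N ^ 2 / n) ≤ N := by linarith
  have h11 : κ * N ^ 2 / (n * (n + κ - 1)) - μ ^ 2 * (N ^ 2 / n) =
      N * (N * (κ - (n + κ - 1) * μ ^ 2) / (n * (n + κ - 1))) := by
    field_simp
  rw [h11] at h10
  have h12 : N * (κ - (n + κ - 1) * μ ^ 2) / (n * (n + κ - 1)) ≤ 1 := by
    have : (N : ℝ) * (N * (κ - (n + κ - 1) * μ ^ 2) / (n * (n + κ - 1))) ≤ N * 1 := by
      rw [mul_one]; exact h10
    exact le_of_mul_le_mul_left this hN'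
  rwa [div_le_one (by positivity)] at h12

/-- the bound of degree two over `ℂ` -/
theorem lev_complex {n N : ℕ} {μ : ℝ} (h : HasSys ℂ n N μ) (hμ : (n : ℝ) * μ ^ 2 ≤ 2)
    (hn : 4 ≤ n) : (N : ℝ) * (2 - (n + 1) * μ ^ 2) ≤ n * (n + 1) := by
  have hn' : (4 : ℝ) ≤ n := by exact_mod_cast hn
  have h1 := lev_gen h (κ := 2) (by norm_num) (by omega) (by nlinarith [sq_nonneg μ]) (by
    intro u
    rw [Fintype.sum_prod_type]
    refine le_trans (le_of_eq ?_) (sum_le_sum fun a _ => sum_le_sum fun b _ => pat_pair u a b)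
    rw [sum_diag (fun a => (∑ k, ‖u k a‖ ^ 2 * ‖u k a‖ ^ 2) ^ 2)
      (fun a b => (∑ k, ‖u k a‖ ^ 2 * ‖u k b‖ ^ 2) ^ 2)]
    ring)
  have e1 : ((n : ℝ) + 2 - 1) = n + 1 := by ring
  rw [e1] at h1
  exact h1

/-- the bound of degree two over `ℝ` -/
theorem lev_real {n N : ℕ} {μ : ℝ} (h : HasSys ℝ n N μ) (hμ : (n : ℝ) * μ ^ 2 ≤ 3)
    (hn : 4 ≤ n) : (N : ℝ) * (3 - (n + 2) * μ ^ 2) ≤ n * (n + 2) := by
  have hn' : (4 : ℝ) ≤ n := by exact_mod_cast hn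
  have h1 := lev_gen h (κ := 3) (by norm_num) (by omega) (by nlinarith [sq_nonneg μ]) (by
    intro u
    rw [Fintype.sum_prod_type]
    refine le_trans (le_of_eq ?_) (sum_le_sum fun a _ => sum_le_sum fun b _ => pat_real u a b)
    rw [sum_diag (fun a => ∑ c, (∑ k, ‖u k a‖ ^ 2 * ‖u k c‖ ^ 2) ^ 2)
      (fun a b => (∑ k, ‖u k a‖ ^ 2 * ‖u k b‖ ^ 2) ^ 2)]
    ring)
  have e1 : ((n : ℝ) + 3 - 1) = n + 2 := by ring
  rw [e1] at h1
  exact h1

end Pool.Agent.H88.NW
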