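import Mathlib
import Pool.Agent.H66.Gol.Paley

/-!
MP_28b514: Hadamard matrices of order `q + 1`, `q ≡ 3 (mod 4)` prime.
-/

set_option autoImplicit false

namespace Pool.Agent.H88.NW

open Finset Matrix

private def had {q : ℕ} (D : Finset (ZMod q)) : Option (ZMod q) → Option (ZMod q) → ℤ
  | none, _ => 1
  | some _, none => 1
  | some i, some j => if j - i ∈ D then 1 else -1

private theorem had_sum (w q : ℕ) (hq : q = 4 * w - 1) (hw : 0 < w) [NeZero q]
    (D : Finset (ZMod q)) (hD : D.card = 2 * w - 1)
    (h : ∀ d : ZMod q, d ≠ 0 → ((D ×ˢ D).filter (fun t => t.1 - t.2 = d)).card = w - 1)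
    (a b : Option (ZMod q)) :
    ∑ c, had D a c * had D b c = if a = b then ((q + 1 : ℕ) : ℤ) else 0 := by
  classical
  have hm : ∀ i : ZMod q, ∑ j : ZMod q, (if j - i ∈ D then (1 : ℤ) else 0) = (D.card : ℤ) := by
    intro i
    rw [← Equiv.sum_comp (Equiv.addRight i) (fun j => if j - i ∈ D then (1 : ℤ) else 0)]
    simp
  have hqz : (q : ℤ) = 4 * w - 1 := by omega
  have hDz : (D.card : ℤ) = 2 * w - 1 := by omega
  have hrow : ∀ i : ZMod q, ∑ j : ZMod q, (if j - i ∈ D then (1 : ℤ) else -1) = -1 := by
    intro i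
    have h1 : ∀ j ∈ (Finset.univ : Finset (ZMod q)), (if j - i ∈ D then (1 : ℤ) else -1) =
        2 * (if j - i ∈ D then (1 : ℤ) else 0) - 1 := by
      intro j _; split_ifs <;> norm_num
    rw [Finset.sum_congr rfl h1, Finset.sum_sub_distrib, ← Finset.mul_sum, hm, Finset.sum_const,
      Finset.card_univ, ZMod.card, nsmul_eq_mul, hqz, hDz]
    ring
  rcases a with _ | i <;> rcases b with _ | k
  · simp [had, ZMod.card]
  · rw [Fintype.sum_option]
    simp only [had, one_mul, mul_one]
    rw [hrow]; simp
  · rw [Fintype.sum_option]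
    simp only [had, mul_one]
    rw [hrow]; simp
  · rw [Fintype.sum_option]
    simp only [had, one_mul]
    by_cases hik : i = k
    · subst hik
      rw [if_pos rfl]
      have h1 : ∀ j ∈ (Finset.univ : Finset (ZMod q)), (if j - i ∈ D then (1 : ℤ) else -1) *
          (if j - i ∈ D then (1 : ℤ) else -1) = 1 := by
        intro j _; split_ifs <;> norm_num
      rw [Finset.sum_congr rfl h1, Finset.sum_const, Finset.card_univ, ZMod.card]
      push_cast
      simp [add_comm]
    · rw [if_neg (by simpa using hik)]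
      have h1 : ∀ j ∈ (Finset.univ : Finset (ZMod q)), (if j - i ∈ D then (1 : ℤ) else -1) *
          (if j - k ∈ D then (1 : ℤ) else -1) =
          4 * (if j - i ∈ D ∧ j - k ∈ D then (1 : ℤ) else 0) -
          2 * (if j - i ∈ D then (1 : ℤ) else 0) - 2 * (if j - k ∈ D then (1 : ℤ) else 0) + 1 := by
        intro j _
        by_cases h2 : j - i ∈ D <;> by_cases h3 : j - k ∈ D <;> simp [h2, h3]
      have h4 : ∑ j : ZMod q, (if j - i ∈ D ∧ j - k ∈ D then (1 : ℤ) else 0) = (w : ℤ) - 1 := by
        rw [← Finset.sum_filter, Finset.sum_const, nsmul_eq_mul, mul_one]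
        have h5 : (Finset.univ.filter fun j : ZMod q => j - i ∈ D ∧ j - k ∈ D).card =
            ((D ×ˢ D).filter (fun t => t.1 - t.2 = k - i)).card := by
          refine Finset.card_nbij' (fun j => (j - i, j - k)) (fun t => t.1 + i) ?_ ?_ ?_ ?_
          · intro j hj
            simp only [coe_filter, mem_univ, true_and, Set.mem_ofPred_eq] at hj
            simp only [coe_filter, mem_product, Set.mem_ofPred_eq]
            exact ⟨hj, by ring⟩
          · intro t ht
            simp only [coe_filter, mem_product, Set.mem_ofPred_eq] at ht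
            simp only [coe_filter, mem_univ, true_and, Set.mem_ofPred_eq]
            obtain ⟨⟨h6, h7⟩, h8⟩ := ht
            refine ⟨by simpa using h6, ?_⟩
            have : t.1 + i - k = t.2 := by linear_combination h8
            rw [this]; exact h7
          · intro j _
            simp
          · intro t ht
            simp only [coe_filter, mem_product, Set.mem_ofPred_eq] at ht
            obtain ⟨_, h8⟩ := ht
            ext
            · simp
            · simp only
              linear_combination h8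
        rw [h5, h (k - i) (sub_ne_zero.2 (Ne.symm hik))]
        omega
      rw [Finset.sum_congr rfl h1, Finset.sum_add_distrib, Finset.sum_sub_distrib,
        Finset.sum_sub_distrib, ← Finset.mul_sum, ← Finset.mul_sum, ← Finset.mul_sum, hm, hm, h4,
        Finset.sum_const, Finset.card_univ, ZMod.card, nsmul_eq_mul, hqz, hDz]
      ring

/-- **Paley's Hadamard matrices.** -/
theorem paley (q : ℕ) (hq : q.Prime) (h4 : q % 4 = 3) :
    ∃ H : Matrix (Fin (q + 1)) (Fin (q + 1)) ℤ, (∀ i j, H i j = 1 ∨ H i j = -1) ∧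
      H * Hᵀ = ((q + 1 : ℕ) : ℤ) • (1 : Matrix (Fin (q + 1)) (Fin (q + 1)) ℤ) := by
  classical
  obtain ⟨w, hw, hqw⟩ : ∃ w, 0 < w ∧ q = 4 * w - 1 := ⟨(q + 1) / 4, by omega, by omega⟩
  have hp : (4 * w - 1).Prime := hqw ▸ hq
  obtain ⟨D, hD, h⟩ := Pool.Agent.H66.Gol.paley w hw hp
  subst hqw
  have : NeZero (4 * w - 1) := ⟨hp.ne_zero⟩
  have hcard : Fintype.card (Option (ZMod (4 * w - 1))) = 4 * w - 1 + 1 := by
    rw [Fintype.card_option, ZMod.card]
  let e : Fin (4 * w - 1 + 1) ≃ Option (ZMod (4 * w - 1)) := (Fintype.equivFinOfCardEq hcard).symm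
  refine ⟨Matrix.of fun i j => had D (e i) (e j), fun i j => ?_, ?_⟩
  · change had D (e i) (e j) = 1 ∨ had D (e i) (e j) = -1
    rcases e i with _ | a <;> rcases e j with _ | b <;> simp [had]
    by_cases hab : b - a ∈ D <;> simp [hab]
  · refine Matrix.ext fun i j => ?_
    rw [Matrix.mul_apply, Matrix.smul_apply, Matrix.one_apply]
    simp only [Matrix.transpose_apply, Matrix.of_apply]
    rw [Equiv.sum_comp e (fun c => had D (e i) c * had D (e j) c),
      had_sum w (4 * w - 1) rfl hw D hD h]
    by_cases hij : i = j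
    · subst hij; simp
    · rw [if_neg (fun h => hij (e.injective h)), if_neg hij]; simp

end Pool.Agent.H88.NW
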