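import Pool.Agent.H37.SFG.Theta

/-!
MP_28b514: primes in intervals `[x (1 - (log x)^(-A)), x]`, also in the class `3 mod 4`.
-/

set_option autoImplicit false

namespace Pool.Agent.H88.NW

open Finset Filter Topology

/-- the abstract form: `T` is a logarithmic count with the error term `O(N / (log N)^(A+2))` -/
private theorem short_of (P : ℕ → Prop) (T : ℕ → ℝ) (κ C : ℝ) (N0 A : ℕ) (hC : 0 ≤ C)
    (hT : ∀ N, N0 ≤ N → |κ * T N - N| ≤ C * N / Real.log N ^ (A + 2))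
    (hP : ∀ M N : ℕ, M ≤ N → (∀ p, M < p → p ≤ N → ¬ P p) → T N = T M) :
    ∃ x0 : ℝ, ∀ x ≥ x0, ∃ p : ℕ, P p ∧ x * (1 - 1 / (Real.log x) ^ (A + 1)) ≤ p ∧ (p : ℝ) ≤ x := by
  have e1 : ∀ᶠ x : ℝ in atTop, Real.log x ^ (A + 2) ≤ x := by
    have h1 := (isLittleO_log_rpow_atTop (r := 1 / ((A : ℝ) + 2)) (by positivity)).bound
      (c := 1) one_pos
    filter_upwards [h1, eventually_ge_atTop (1 : ℝ)] with x hx hx1
    have hl : 0 ≤ Real.log x := Real.log_nonneg hx1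
    rw [one_mul, Real.norm_of_nonneg hl, Real.norm_of_nonneg (by positivity)] at hx
    calc Real.log x ^ (A + 2) ≤ (x ^ (1 / ((A : ℝ) + 2))) ^ (A + 2) :=
          pow_le_pow_left₀ hl hx _
      _ = x := by
          rw [← Real.rpow_natCast, ← Real.rpow_mul (by linarith)]
          push_cast
          rw [one_div, inv_mul_cancel₀ (by positivity), Real.rpow_one]
  have e2 : ∀ᶠ x : ℝ in atTop, C * 2 ^ (A + 3) + 2 ≤ Real.log x :=
    Real.tendsto_log_atTop.eventually_ge_atTop _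
  have e3 : ∀ᶠ x : ℝ in atTop, (2 : ℝ) ≤ Real.log x :=
    Real.tendsto_log_atTop.eventually_ge_atTop _
  obtain ⟨x0, hx0⟩ := (e1.and (e2.and (e3.and ((eventually_ge_atTop (16 : ℝ)).and
    (eventually_ge_atTop (2 * (N0 : ℝ) + 4)))))).exists_forall_of_atTop
  refine ⟨x0, fun x hx => ?_⟩
  obtain ⟨h1, h2, h3, h4, h5⟩ := hx0 x hx
  set L := Real.log x with hL
  have hx' : (0 : ℝ) < x := by linarith
  have hL1 : (2 : ℝ) ≤ L ^ (A + 1) := by
    calc (2 : ℝ) ≤ L := h3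
      _ = L ^ 1 := (pow_one L).symm
      _ ≤ L ^ (A + 1) := pow_le_pow_right₀ (by linarith) (by omega)
  have hLp : (0 : ℝ) < L ^ (A + 1) := by linarith
  set y := x * (1 - 1 / L ^ (A + 1)) with hy
  have hyx : y = x - x / L ^ (A + 1) := by rw [hy]; ring
  have hq : x / L ^ (A + 1) ≤ x / 2 := by
    apply div_le_div_of_nonneg_left hx'.le (by norm_num) hL1
  have hq0 : 0 < x / L ^ (A + 1) := by positivity
  have hy2 : x / 2 ≤ y := by rw [hyx]; linarith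
  have hyx' : y ≤ x := by rw [hyx]; linarith
  by_contra hcon
  push Not at hcon
  have hM0 : (0 : ℝ) ≤ y := by linarith
  have hMy : ((⌊y⌋₊ : ℕ) : ℝ) ≤ y := Nat.floor_le hM0
  have hMy' : y < (⌊y⌋₊ : ℕ) + 1 := Nat.lt_floor_add_one y
  have hNx : ((⌊x⌋₊ : ℕ) : ℝ) ≤ x := Nat.floor_le hx'.le
  have hNx' : x < (⌊x⌋₊ : ℕ) + 1 := Nat.lt_floor_add_one x
  have hMN : ⌊y⌋₊ ≤ ⌊x⌋₊ := Nat.floor_mono hyx'
  set M := ⌊y⌋₊ with hM
  set N := ⌊x⌋₊ with hN
  have hMN' : (M : ℝ) ≤ N := Nat.cast_le.mpr hMN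
  have hTT : T N = T M := by
    refine hP M N hMN fun p hp1 hp2 hp => ?_
    have h6 := hcon p hp (by
      have : ((M + 1 : ℕ) : ℝ) ≤ p := Nat.cast_le.mpr hp1
      push_cast at this
      linarith)
    have h7 : (p : ℝ) ≤ N := Nat.cast_le.mpr hp2
    linarith
  -- `M ≥ sqrt x`
  have hMs : Real.sqrt x ≤ M := by
    have h6 : Real.sqrt x ≤ x / 2 - 1 := by
      rw [Real.sqrt_le_left (by linarith)]
      nlinarith
    linarith
  have hlM : L / 2 ≤ Real.log M := by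
    have h6 : Real.log (Real.sqrt x) ≤ Real.log M :=
      Real.log_le_log (Real.sqrt_pos.2 hx') hMs
    rwa [Real.log_sqrt hx'.le] at h6
  have hMpos : (0 : ℝ) < M := lt_of_lt_of_le (Real.sqrt_pos.2 hx') hMs
  have hlN : L / 2 ≤ Real.log N :=
    hlM.trans (Real.log_le_log hMpos hMN')
  have hN0M : N0 ≤ M := by
    have h6 : (N0 : ℝ) ≤ M := by linarith
    exact Nat.cast_le.mp h6
  have hN0N : N0 ≤ N := hN0M.trans hMN
  have hb : ∀ K : ℕ, N0 ≤ K → (K : ℝ) ≤ x → L / 2 ≤ Real.log K →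
      |κ * T K - K| ≤ C * x * 2 ^ (A + 2) / L ^ (A + 2) := by
    intro K hK hKx hKL
    refine (hT K hK).trans ?_
    have h6 : (0 : ℝ) < (L / 2) ^ (A + 2) := by positivity
    have h7 : (L / 2) ^ (A + 2) ≤ Real.log K ^ (A + 2) :=
      pow_le_pow_left₀ (by linarith) hKL _
    calc C * K / Real.log K ^ (A + 2) ≤ C * x / (L / 2) ^ (A + 2) := by
          apply div_le_div₀ (by positivity) _ h6 h7
          exact mul_le_mul_of_nonneg_left hKx hC
      _ = C * x * 2 ^ (A + 2) / L ^ (A + 2) := by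
          rw [div_pow]
          field_simp
  have hbN := hb N hN0N hNx hlN
  have hbM := hb M hN0M (hMN'.trans hNx) hlM
  rw [hTT] at hbN
  rw [abs_le] at hbN hbM
  have h8 : (N : ℝ) - M ≤ 2 * (C * x * 2 ^ (A + 2) / L ^ (A + 2)) := by linarith [hbN.2, hbM.1, hbN.1, hbM.2]
  have h9 : x / L ^ (A + 1) - 1 ≤ (N : ℝ) - M := by
    have : x - 1 - y ≤ (N : ℝ) - M := by linarith
    rw [hyx] at this
    linarith
  have hLp2 : (0 : ℝ) < L ^ (A + 2) := by positivity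
  have h10 : (x / L ^ (A + 1) - 1) * L ^ (A + 2) ≤ C * 2 ^ (A + 3) * x := by
    calc (x / L ^ (A + 1) - 1) * L ^ (A + 2) ≤
          (2 * (C * x * 2 ^ (A + 2) / L ^ (A + 2))) * L ^ (A + 2) :=
          mul_le_mul_of_nonneg_right (h9.trans h8) hLp2.le
      _ = C * 2 ^ (A + 3) * x := by
          field_simp
          ring
  have h11 : (x / L ^ (A + 1) - 1) * L ^ (A + 2) = x * L - L ^ (A + 2) := by
    rw [pow_succ L (A + 1)]
    field_simp
  rw [h11] at h10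
  nlinarith

private theorem weaken {P : ℕ → Prop} {A : ℕ}
    (h : ∃ x0 : ℝ, ∀ x ≥ x0, ∃ p : ℕ, P p ∧ x * (1 - 1 / (Real.log x) ^ (A + 1)) ≤ p ∧
      (p : ℝ) ≤ x) :
    ∃ x0 : ℝ, ∀ x ≥ x0, ∃ p : ℕ, P p ∧ x * (1 - 1 / (Real.log x) ^ A) ≤ p ∧ (p : ℝ) ≤ x := by
  obtain ⟨x0, hx0⟩ := h
  obtain ⟨x1, hx1⟩ := ((Real.tendsto_log_atTop.eventually_ge_atTop 1).and
    (eventually_ge_atTop (0 : ℝ))).exists_forall_of_atTop
  refine ⟨max x0 x1, fun x hx => ?_⟩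
  obtain ⟨p, hp, h1, h2⟩ := hx0 x ((le_max_left _ _).trans hx)
  obtain ⟨h3, h4⟩ := hx1 x ((le_max_right _ _).trans hx)
  refine ⟨p, hp, le_trans ?_ h1, h2⟩
  refine mul_le_mul_of_nonneg_left ?_ h4
  have h5 : Real.log x ^ A ≤ Real.log x ^ (A + 1) := pow_le_pow_right₀ h3 (by omega)
  have h6 : (0 : ℝ) < Real.log x ^ A := by positivity
  have h7 := one_div_le_one_div_of_le h6 h5
  linarith

/-- Primes in `[x (1 - (log x)^(-A)), x]`. -/
theorem prime_short (A : ℕ) : ∃ x0 : ℝ, ∀ x ≥ x0, ∃ p : ℕ, p.Prime ∧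
    x * (1 - 1 / (Real.log x) ^ A) ≤ p ∧ (p : ℝ) ≤ x := by
  refine weaken ?_
  obtain ⟨C, hC⟩ := Pool.Agent.SW.theta_pnt (A + 2)
  refine short_of Nat.Prime (fun N => Chebyshev.theta (N : ℝ)) 1 |C| 2 A (abs_nonneg C) ?_ ?_
  · intro N hN
    have hN2 : (2 : ℝ) ≤ N := by exact_mod_cast hN
    have h1 := hC N hN2
    rw [one_mul]
    refine h1.trans ?_
    have hl : 0 ≤ Real.log N := Real.log_nonneg (by linarith)
    apply div_le_div_of_nonneg_right _ (by positivity)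
    exact mul_le_mul_of_nonneg_right (le_abs_self C) (by linarith)
  · intro M N hMN h
    simp only [Chebyshev.theta, Nat.floor_natCast]
    refine (Finset.sum_subset ?_ ?_).symm
    · intro p hp
      rw [Finset.mem_filter, Finset.mem_Ioc] at hp ⊢
      exact ⟨⟨hp.1.1, hp.1.2.trans hMN⟩, hp.2⟩
    · intro p hp hp2
      rw [Finset.mem_filter, Finset.mem_Ioc] at hp hp2
      exfalso
      refine h p ?_ hp.1.2 hp.2
      by_contra h3
      exact hp2 ⟨⟨hp.1.1, not_lt.1 h3⟩, hp.2⟩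

private theorem short3_aux (A : ℕ) : ∃ x0 : ℝ, ∀ x ≥ x0, ∃ p : ℕ, (p.Prime ∧ p % 4 = 3) ∧
    x * (1 - 1 / (Real.log x) ^ A) ≤ p ∧ (p : ℝ) ≤ x := by
  refine weaken ?_
  obtain ⟨C, hC0, hC⟩ := Pool.Agent.H37.SFG.theta_class (1 / 2) (by norm_num) (by norm_num) (A + 2)
  obtain ⟨x1, hx1⟩ := (Real.tendsto_log_atTop.eventually_ge_atTop 16).exists_forall_of_atTop
  refine short_of (fun p => p.Prime ∧ p % 4 = 3)
    (fun N => Pool.Agent.H37.SFQ.fW 0 N 4 3) 2 C (⌈x1⌉₊ + 2) A hC0.le ?_ ?_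
  · intro N hN
    have hN1 : x1 ≤ N := by
      have h1 : x1 ≤ (⌈x1⌉₊ : ℝ) := Nat.le_ceil x1
      have h2 : ((⌈x1⌉₊ + 2 : ℕ) : ℝ) ≤ N := Nat.cast_le.mpr hN
      push_cast at h2
      linarith
    have hlog := hx1 N hN1
    have h1 := hC N (by omega) 4 3 (by norm_num) (by
      push_cast
      have h3 : (4 : ℝ) = (16 : ℝ) ^ ((1 : ℝ) - 1 / 2) := by
        rw [show (16 : ℝ) = 4 ^ (2 : ℝ) by norm_num, ← Real.rpow_mul (by norm_num)]
        norm_num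
      rw [h3]
      exact Real.rpow_le_rpow (by norm_num) hlog (by norm_num)) (by norm_num) (by decide)
    have h2 : ((Nat.totient 4 : ℕ) : ℝ) = 2 := by
      have : Nat.totient 4 = 2 := by decide
      rw [this]; norm_num
    rw [h2] at h1
    exact h1
  · intro M N hMN h
    simp only [Pool.Agent.H37.SFQ.fW]
    refine (Finset.sum_subset ?_ ?_).symm
    · intro p hp
      rw [Finset.mem_filter, Pool.Agent.H37.SFQ.mem_wp] at hp ⊢
      exact ⟨⟨⟨hp.1.1.1, by omega⟩, hp.1.2⟩, hp.2⟩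
    · intro p hp hp2
      rw [Finset.mem_filter, Pool.Agent.H37.SFQ.mem_wp] at hp hp2
      exfalso
      refine h p ?_ (by omega) ⟨hp.1.2, hp.2⟩
      by_contra h3
      exact hp2 ⟨⟨⟨hp.1.1.1, by omega⟩, hp.1.2⟩, hp.2⟩

/-- Primes `p = 3 mod 4` in `[x (1 - (log x)^(-A)), x]`. -/
theorem prime_short3 (A : ℕ) : ∃ x0 : ℝ, ∀ x ≥ x0, ∃ p : ℕ, p.Prime ∧ p % 4 = 3 ∧
    x * (1 - 1 / (Real.log x) ^ A) ≤ p ∧ (p : ℝ) ≤ x := by
  obtain ⟨x0, hx0⟩ := short3_aux A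
  refine ⟨x0, fun x hx => ?_⟩
  obtain ⟨p, ⟨h1, h2⟩, h3, h4⟩ := hx0 x hx
  exact ⟨p, h1, h2, h3, h4⟩

end Pool.Agent.H88.NW
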