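import Pool.Agent.H88.NW.Pad

/-!
MP_28b514: the two level transversal design.

Points `(x, y, i)`, `x, y ∈ F_k`, `i ∈ Z_p`; parallel classes `(d, a)`, `d ∈ F_k ∪ {∞}` a
direction, `a ∈ Z_p`; the block of the class through `(x, y, i)` is the pair of the line through
`(x, y)` with direction `d` and of `i - a s`, `s ∈ {0, ..., k - 1}` the parameter of `(x, y)` on its
line.  Two different points are in a common block of at most one class.
-/

set_option autoImplicit false

namespace Pool.Agent.H88.NW

open Finset

section design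

variable {k p : ℕ}

private def tdLine (d : Option (ZMod k)) (x y : ZMod k) : ZMod k :=
  match d with
  | some m => y - m * x
  | none => x

private def tdPar (d : Option (ZMod k)) (x y : ZMod k) : ZMod k :=
  match d with
  | some _ => x
  | none => y

private def tdBlock (c : Option (ZMod k) × ZMod p) (P : ZMod k × ZMod k × ZMod p) :
    ZMod k × ZMod p :=
  (tdLine c.1 P.1 P.2.1, P.2.2 - c.2 * ((tdPar c.1 P.1 P.2.1).val : ZMod p))

private theorem td_line_par (d : Option (ZMod k)) {x y x' y' : ZMod k}
    (h1 : tdLine d x y = tdLine d x' y') (h2 : tdPar d x y = tdPar d x' y') :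
    x = x' ∧ y = y' := by
  cases d with
  | none => exact ⟨h1, h2⟩
  | some m =>
    simp only [tdLine, tdPar] at h1 h2
    subst h2
    exact ⟨rfl, sub_left_injective h1⟩

private theorem td_dir [Fact k.Prime] {d d' : Option (ZMod k)} {x y x' y' : ZMod k}
    (h1 : tdLine d x y = tdLine d x' y') (h2 : tdLine d' x y = tdLine d' x' y')
    (hne : ¬ (x = x' ∧ y = y')) : d = d' := by
  cases d with
  | none =>
    cases d' with
    | none => rfl
    | some m =>
      simp only [tdLine] at h1 h2
      subst h1
      exact absurd ⟨rfl, sub_left_injective h2⟩ hne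
  | some m =>
    cases d' with
    | none =>
      simp only [tdLine] at h1 h2
      subst h2
      exact absurd ⟨rfl, sub_left_injective h1⟩ hne
    | some m' =>
      simp only [tdLine] at h1 h2
      have h3 : (m - m') * (x - x') = 0 := by linear_combination h2 - h1
      rcases mul_eq_zero.1 h3 with h | h
      · rw [sub_eq_zero.1 h]
      · have hx : x = x' := sub_eq_zero.1 h
        subst hx
        exact absurd ⟨rfl, sub_left_injective h1⟩ hne

private theorem td_block [Fact k.Prime] [Fact p.Prime] (hkp : k ≤ p)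
    {P Q : ZMod k × ZMod k × ZMod p} (hPQ : P ≠ Q) {c c' : Option (ZMod k) × ZMod p}
    (h : tdBlock c P = tdBlock c Q) (h' : tdBlock c' P = tdBlock c' Q) : c = c' := by
  obtain ⟨x, y, i⟩ := P
  obtain ⟨x', y', i'⟩ := Q
  obtain ⟨d, a⟩ := c
  obtain ⟨d', a'⟩ := c'
  simp only [tdBlock, Prod.mk.injEq] at h h'
  obtain ⟨h1, h2⟩ := h
  obtain ⟨h1', h2'⟩ := h'
  have hne : ¬ (x = x' ∧ y = y') := by
    rintro ⟨rfl, rfl⟩
    exact hPQ (by rw [sub_left_injective h2])
  have hd := td_dir h1 h1' hne
  subst hd
  have h3 : (a - a') * (((tdPar d x y).val : ZMod p) - ((tdPar d x' y').val : ZMod p)) = 0 := by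
    linear_combination h2' - h2
  rcases mul_eq_zero.1 h3 with h | h
  · rw [sub_eq_zero.1 h]
  · exfalso
    have h4 := sub_eq_zero.1 h
    rw [ZMod.natCast_eq_natCast_iff'] at h4
    have e1 : (tdPar d x y).val < p := (ZMod.val_lt _).trans_le hkp
    have e2 : (tdPar d x' y').val < p := (ZMod.val_lt _).trans_le hkp
    rw [Nat.mod_eq_of_lt e1, Nat.mod_eq_of_lt e2] at h4
    exact hne (td_line_par d h1 (ZMod.val_injective k h4))

end design

/-- the two level design with a Hadamard matrix -/
theorem td {k p r : ℕ} (hk : k.Prime) (hp : p.Prime) (hkp : k ≤ p) (hr : r ≤ p * (k + 1))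
    (hr0 : 0 < r) (H : Matrix (Fin r) (Fin r) ℤ) (hpm : ∀ i j, H i j = 1 ∨ H i j = -1)
    (hH : H * H.transpose = (r : ℤ) • (1 : Matrix (Fin r) (Fin r) ℤ)) :
    HasSys ℝ (r * k * p) (k ^ 2 * p * r) (1 / r) := by
  classical
  have : Fact k.Prime := ⟨hk⟩
  have : Fact p.Prime := ⟨hp⟩
  have hr' : (0 : ℝ) < r := by exact_mod_cast hr0
  obtain ⟨c⟩ : Nonempty (Fin r ↪ (Option (ZMod k) × ZMod p)) := by
    apply Function.Embedding.nonempty_of_card_le
    rw [Fintype.card_fin, Fintype.card_prod, Fintype.card_option, ZMod.card, ZMod.card, mul_comm]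
    exact hr
  let v : (ZMod k × ZMod k × ZMod p) × Fin r → EuclideanSpace ℝ (Fin r × (ZMod k × ZMod p)) :=
    fun u => WithLp.toLp 2 (fun z => if tdBlock (c z.1) u.1 = z.2 then (H u.2 z.1 : ℝ) / √r else 0)
  have hin : ∀ u w, inner ℝ (v u) (v w) =
      ∑ j, if tdBlock (c j) u.1 = tdBlock (c j) w.1 then (H u.2 j : ℝ) * H w.2 j / r else 0 := by
    intro u w
    rw [PiLp.inner_apply, Fintype.sum_prod_type]
    refine sum_congr rfl fun j _ => ?_
    have e1 : ∀ z : ZMod k × ZMod p, inner ℝ ((v u) (j, z)) ((v w) (j, z)) =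
        if z = tdBlock (c j) u.1 then (if tdBlock (c j) u.1 = tdBlock (c j) w.1 then
          (H u.2 j : ℝ) * H w.2 j / r else 0) else 0 := by
      intro z
      change inner ℝ (if tdBlock (c j) u.1 = z then (H u.2 j : ℝ) / √r else 0)
        (if tdBlock (c j) w.1 = z then (H w.2 j : ℝ) / √r else 0) = _
      rw [RCLike.inner_apply]
      by_cases hz : z = tdBlock (c j) u.1
      · subst hz
        rw [if_pos rfl, if_pos rfl]
        by_cases hw : tdBlock (c j) w.1 = tdBlock (c j) u.1
        · rw [if_pos hw, if_pos hw.symm]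
          change (H w.2 j : ℝ) / √r * ((H u.2 j : ℝ) / √r) = _
          rw [div_mul_div_comm, Real.mul_self_sqrt hr'.le, mul_comm]
        · rw [if_neg hw, if_neg (fun h => hw h.symm), zero_mul]
      · have hz' : ¬ tdBlock (c j) u.1 = z := fun h => hz h.symm
        rw [if_neg hz', if_neg hz]
        simp
    rw [sum_congr rfl fun z _ => e1 z, sum_ite_eq']
    simp
  have hHH : ∀ s t, ∑ j, (H s j : ℝ) * H t j = if s = t then (r : ℝ) else 0 := by
    intro s t
    have e1 : (H * H.transpose) s t = ((r : ℤ) • (1 : Matrix (Fin r) (Fin r) ℤ)) s t := by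
      rw [hH]
    rw [Matrix.mul_apply, Matrix.smul_apply, Matrix.one_apply] at e1
    have e2 : ((∑ j, H s j * H t j : ℤ) : ℝ) = ((if s = t then (r : ℤ) else 0 : ℤ) : ℝ) := by
      have e3 : ∑ j, H s j * H t j = if s = t then (r : ℤ) else 0 := by
        rw [smul_eq_mul, mul_ite, mul_one, mul_zero] at e1
        exact e1
      rw [e3]
    push_cast at e2
    exact e2
  refine HasSys.of_family v (fun u => ?_) (fun u w huw => ?_) ?_ ?_
  · have e1 : ‖v u‖ ^ 2 = 1 := by
      rw [← real_inner_self_eq_norm_sq, hin]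
      simp only [if_true]
      rw [← sum_div, hHH, if_pos rfl, div_self hr'.ne']
    nlinarith [norm_nonneg (v u)]
  · rw [hin]
    obtain ⟨P, s⟩ := u
    obtain ⟨Q, t⟩ := w
    by_cases hPQ : P = Q
    · subst hPQ
      have hst : s ≠ t := fun h => huw (by rw [h])
      simp only [if_true]
      rw [← sum_div, hHH, if_neg hst, zero_div, norm_zero]
      positivity
    · by_cases hex : ∃ j, tdBlock (c j) P = tdBlock (c j) Q
      · obtain ⟨j0, hj0⟩ := hex
        rw [sum_eq_single j0]
        · rw [if_pos hj0]
          rw [Real.norm_eq_abs, abs_div, abs_mul, abs_of_pos hr']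
          have e1 : ∀ a b : Fin r, |(H a b : ℝ)| = 1 := by
            intro a b
            rcases hpm a b with h | h
            · rw [h]; simp
            · rw [h]; simp
          rw [e1, e1, one_mul]
        · intro j _ hj
          rw [if_neg]
          intro h
          exact hj (c.injective (td_block hkp hPQ h hj0))
        · intro h
          exact absurd (mem_univ _) h
      · push Not at hex
        rw [sum_eq_zero fun j _ => if_neg (hex j), norm_zero]
        positivity
  · rw [Fintype.card_prod, Fintype.card_prod, ZMod.card, ZMod.card, Fintype.card_fin, mul_assoc]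
  · rw [Fintype.card_prod, Fintype.card_prod, Fintype.card_prod, ZMod.card, ZMod.card,
      Fintype.card_fin]
    exact le_of_eq (by ring)

end Pool.Agent.H88.NW
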