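import Pool.Agent.H88.NW.Def

/-!
MP_28b514: upper bounds by the rank inequality `(tr G)^2 ≤ rank G * ‖G‖^2`.
-/

set_option autoImplicit false

namespace Pool.Agent.H88.NW

open Finset Matrix

/-- the rank inequality for hermitian matrices -/
theorem trace_sq_le {𝕜 ι : Type} [RCLike 𝕜] [Fintype ι] [DecidableEq ι] (G : Matrix ι ι 𝕜)
    (hG : G.IsHermitian) : ‖G.trace‖ ^ 2 ≤ G.rank * ∑ i, ∑ j, ‖G i j‖ ^ 2 := by
  classical
  have h1 : G.trace = ((∑ i, hG.eigenvalues i : ℝ) : 𝕜) := by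
    rw [hG.trace_eq_sum_eigenvalues]
    push_cast
    rfl
  have h2 : (∑ i, ∑ j, ‖G i j‖ ^ 2 : ℝ) = ∑ i, hG.eigenvalues i ^ 2 := by
    have e1 : ((∑ i, ∑ j, ‖G i j‖ ^ 2 : ℝ) : 𝕜) = (G * G).trace := by
      rw [Matrix.trace]
      push_cast
      refine sum_congr rfl fun i _ => ?_
      rw [Matrix.diag_apply, Matrix.mul_apply]
      refine sum_congr rfl fun j _ => ?_
      have e2 : G j i = (starRingEnd 𝕜) (G i j) := by
        conv_lhs => rw [← hG.eq]
        rfl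
      rw [e2, RCLike.mul_conj]
    have e3 : (G * G).trace = ((∑ i, hG.eigenvalues i ^ 2 : ℝ) : 𝕜) := by
      have e5 := hG.spectral_theorem
      have e4 : G * G = Unitary.conjStarAlgAut 𝕜 _ hG.eigenvectorUnitary
          (diagonal (RCLike.ofReal ∘ hG.eigenvalues) *
            diagonal (RCLike.ofReal ∘ hG.eigenvalues)) := by
        rw [map_mul, ← e5]
      rw [e4, Unitary.conjStarAlgAut_apply, Matrix.trace_mul_cycle, ← Matrix.mul_assoc]
      rw [Unitary.coe_star_mul_self, Matrix.one_mul, diagonal_mul_diagonal, trace_diagonal]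
      push_cast
      refine sum_congr rfl fun i _ => ?_
      simp [sq]
    have e7 := e1.trans e3
    exact_mod_cast e7
  have h3 : (∑ i, hG.eigenvalues i) ^ 2 ≤ G.rank * ∑ i, hG.eigenvalues i ^ 2 := by
    rw [hG.rank_eq_card_non_zero_eigs, Fintype.card_subtype]
    have e1 : ∑ i, hG.eigenvalues i = ∑ i ∈ univ.filter (fun i => hG.eigenvalues i ≠ 0),
        hG.eigenvalues i := by
      rw [sum_filter_ne_zero]
    rw [e1]
    refine (sq_sum_le_card_mul_sum_sq).trans ?_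
    gcongr
    exact filter_subset _ _
  rw [h1, h2, RCLike.norm_ofReal, sq_abs]
  exact h3

/-- the counting form of the rank inequality -/
theorem rank_count {𝕜 : Type} [RCLike 𝕜] {N D : ℕ} (G : Matrix (Fin N) (Fin N) 𝕜)
    (hG : G.IsHermitian) (hD : G.rank ≤ D) {d c : ℝ} (hdiag : ∀ k, G k k = (d : 𝕜))
    (hoff : ∀ k l, k ≠ l → ‖G k l‖ ≤ c) : (N : ℝ) * d ^ 2 ≤ D * (d ^ 2 + N * c ^ 2) := by
  rcases Nat.eq_zero_or_pos N with h0 | hN
  · subst h0
    simp only [Nat.cast_zero, zero_mul, add_zero]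
    positivity
  have hN' : (0 : ℝ) < N := by exact_mod_cast hN
  have h1 := trace_sq_le G hG
  have h2 : G.trace = ((N * d : ℝ) : 𝕜) := by
    have e0 : ∀ k ∈ (univ : Finset (Fin N)), G.diag k = (d : 𝕜) := fun k _ => hdiag k
    rw [Matrix.trace, sum_congr rfl e0, sum_const, card_univ, Fintype.card_fin,
      nsmul_eq_mul]
    push_cast
    rfl
  have h3 : ∑ i, ∑ j, ‖G i j‖ ^ 2 ≤ N * d ^ 2 + N * (N * c ^ 2) := by
    have e1 : ∀ i j, ‖G i j‖ ^ 2 ≤ (if i = j then d ^ 2 else 0) + c ^ 2 := by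
      intro i j
      by_cases h : i = j
      · subst h
        rw [if_pos rfl, hdiag, RCLike.norm_ofReal, sq_abs]
        nlinarith [sq_nonneg c]
      · rw [if_neg h, zero_add]
        have := hoff i j h
        have := norm_nonneg (G i j)
        nlinarith
    refine (sum_le_sum fun i _ => sum_le_sum fun j _ => e1 i j).trans (le_of_eq ?_)
    simp only [sum_add_distrib, sum_ite_eq, mem_univ, if_true, sum_const, card_univ,
      Fintype.card_fin, nsmul_eq_mul]
  rw [h2, RCLike.norm_ofReal, sq_abs] at h1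
  have h4 : (N * d : ℝ) ^ 2 ≤ D * (N * d ^ 2 + N * (N * c ^ 2)) := by
    refine h1.trans ?_
    have e2 : (G.rank : ℝ) ≤ D := by exact_mod_cast hD
    have e3 : 0 ≤ ∑ i, ∑ j, ‖G i j‖ ^ 2 := by positivity
    have e4 : (0 : ℝ) ≤ D := by positivity
    nlinarith
  have h5 : (N : ℝ) * (N * d ^ 2) ≤ N * (D * (d ^ 2 + N * c ^ 2)) := by nlinarith
  exact le_of_mul_le_mul_left h5 hN'

section fields

variable {𝕜 : Type} [RCLike 𝕜] {n N : ℕ} {μ : ℝ}

/-- the Welch bound -/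
theorem welch (h : HasSys 𝕜 n N μ) : (N : ℝ) * (1 - n * μ ^ 2) ≤ n := by
  obtain ⟨g, hg1, hg2⟩ := h
  let G : Matrix (Fin N) (Fin N) 𝕜 := fun k l => inner 𝕜 (g k) (g l)
  have hG : G.IsHermitian := by
    ext k l
    rw [Matrix.conjTranspose_apply]
    exact inner_conj_symm (g k) (g l)
  have hfac : G = (Matrix.of fun k a => (starRingEnd 𝕜) (g k a) : Matrix (Fin N) (Fin n) 𝕜) *
      (Matrix.of fun a l => g l a : Matrix (Fin n) (Fin N) 𝕜) := by
    ext k l
    rw [Matrix.mul_apply]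
    change inner 𝕜 (g k) (g l) = _
    rw [PiLp.inner_apply]
    refine sum_congr rfl fun a _ => ?_
    rw [RCLike.inner_apply, mul_comm]
    rfl
  have hrank : G.rank ≤ n := by
    rw [hfac]
    refine (Matrix.rank_mul_le_left _ _).trans ?_
    refine (Matrix.rank_le_card_width _).trans ?_
    simp
  have h1 := rank_count G hG hrank (d := 1) (c := μ) (fun k => by
    change inner 𝕜 (g k) (g k) = _
    rw [inner_self_eq_norm_sq_to_K, hg1]
    simp) (fun k l hkl => hg2 k l hkl)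
  nlinarith

/-- the second bound, `D` a bound for the rank of `|⟨g_k, g_l⟩|^2 - μ^2/2` -/
theorem second {D : ℕ} (g : Fin N → EuclideanSpace 𝕜 (Fin n)) (hg1 : ∀ k, ‖g k‖ = 1)
    (hg2 : ∀ k l, k ≠ l → ‖inner 𝕜 (g k) (g l)‖ ≤ μ)
    (hD : (Matrix.of fun k l => (((‖inner 𝕜 (g k) (g l)‖ ^ 2 - μ ^ 2 / 2 : ℝ)) : 𝕜)).rank ≤ D) :
    (N : ℝ) * (1 - μ ^ 2 / 2) ^ 2 ≤ D * ((1 - μ ^ 2 / 2) ^ 2 + N * (μ ^ 2 / 2) ^ 2) := by
  refine rank_count (Matrix.of fun k l => (((‖inner 𝕜 (g k) (g l)‖ ^ 2 - μ ^ 2 / 2 : ℝ)) : 𝕜))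
    ?_ hD ?_ ?_
  · ext k l
    rw [Matrix.conjTranspose_apply, Matrix.of_apply, Matrix.of_apply, norm_inner_symm]
    exact RCLike.conj_ofReal _
  · intro k
    rw [Matrix.of_apply, inner_self_eq_norm_sq_to_K, hg1]
    simp
  · intro k l hkl
    rw [Matrix.of_apply, RCLike.norm_ofReal, abs_le]
    have h1 := hg2 k l hkl
    have h2 := norm_nonneg (inner 𝕜 (g k) (g l))
    have h3 : ‖inner 𝕜 (g k) (g l)‖ ^ 2 ≤ μ ^ 2 := by nlinarith
    constructor
    · nlinarith [sq_nonneg ‖inner 𝕜 (g k) (g l)‖]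
    · linarith

end fields

/-- the rank over `ℂ` -/
theorem rank_complex {n N : ℕ} {μ : ℝ} (g : Fin N → EuclideanSpace ℂ (Fin n))
    (hg1 : ∀ k, ‖g k‖ = 1) :
    (Matrix.of fun k l => (((‖inner ℂ (g k) (g l)‖ ^ 2 - μ ^ 2 / 2 : ℝ)) : ℂ)).rank ≤
      n ^ 2 := by
  have hfac : (Matrix.of fun k l => (((‖inner ℂ (g k) (g l)‖ ^ 2 - μ ^ 2 / 2 : ℝ)) : ℂ)) =
      (Matrix.of fun k p => (starRingEnd ℂ) (g k p.1) * g k p.2 :
        Matrix (Fin N) (Fin n × Fin n) ℂ) *
      (Matrix.of fun p l => g l p.1 * (starRingEnd ℂ) (g l p.2) -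
        (if p.1 = p.2 then ((μ ^ 2 / 2 : ℝ) : ℂ) else 0) : Matrix (Fin n × Fin n) (Fin N) ℂ) := by
    ext k l
    rw [Matrix.mul_apply, Matrix.of_apply, Fintype.sum_prod_type]
    simp only [Matrix.of_apply]
    have e1 : ∀ u v : EuclideanSpace ℂ (Fin n), inner ℂ u v =
        ∑ a, (starRingEnd ℂ) (u a) * v a := by
      intro u v
      rw [PiLp.inner_apply]
      refine sum_congr rfl fun a _ => ?_
      rw [RCLike.inner_apply, mul_comm]
    have e2 : ((‖inner ℂ (g k) (g l)‖ ^ 2 : ℝ) : ℂ) =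
        ∑ a, ∑ b, ((starRingEnd ℂ) (g k a) * g k b) * (g l a * (starRingEnd ℂ) (g l b)) := by
      have e3 : ((‖inner ℂ (g k) (g l)‖ ^ 2 : ℝ) : ℂ) =
          inner ℂ (g k) (g l) * (starRingEnd ℂ) (inner ℂ (g k) (g l)) := by
        rw [RCLike.mul_conj]
        push_cast
        rfl
      rw [e3, e1, map_sum, sum_mul_sum]
      refine sum_congr rfl fun a _ => sum_congr rfl fun b _ => ?_
      rw [map_mul, Complex.conj_conj]
      ring
    have e4 : ∑ a, ∑ b, ((starRingEnd ℂ) (g k a) * g k b) *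
        (if a = b then ((μ ^ 2 / 2 : ℝ) : ℂ) else 0) = ((μ ^ 2 / 2 : ℝ) : ℂ) := by
      have e5 : ∀ a, ∑ b, ((starRingEnd ℂ) (g k a) * g k b) *
          (if a = b then ((μ ^ 2 / 2 : ℝ) : ℂ) else 0) =
          ((starRingEnd ℂ) (g k a) * g k a) * ((μ ^ 2 / 2 : ℝ) : ℂ) := by
        intro a
        simp
      rw [sum_congr rfl fun a _ => e5 a, ← sum_mul, ← e1, inner_self_eq_norm_sq_to_K, hg1]
      simp
    have e6 : (((‖inner ℂ (g k) (g l)‖ ^ 2 - μ ^ 2 / 2 : ℝ)) : ℂ) =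
        ((‖inner ℂ (g k) (g l)‖ ^ 2 : ℝ) : ℂ) - ((μ ^ 2 / 2 : ℝ) : ℂ) := by
      push_cast
      ring
    rw [e6, e2]
    conv_lhs => rw [← e4]
    rw [← sum_sub_distrib]
    refine sum_congr rfl fun a _ => ?_
    rw [← sum_sub_distrib]
    refine sum_congr rfl fun b _ => ?_
    ring
  rw [hfac]
  refine (Matrix.rank_mul_le_left _ _).trans ?_
  refine (Matrix.rank_le_card_width _).trans ?_
  simp [sq]

private theorem sum_pairs {n : ℕ} (F : Fin n → Fin n → ℝ) (hF : ∀ a b, F a b = F b a) :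
    ∑ p : {p : Fin n × Fin n // p.1 ≤ p.2},
      (if p.1.1 = p.1.2 then F p.1.1 p.1.2 else 2 * F p.1.1 p.1.2) = ∑ a, ∑ b, F a b := by
  classical
  rw [← Fintype.sum_prod_type (f := fun p : Fin n × Fin n => F p.1 p.2)]
  rw [← sum_filter_add_sum_filter_not univ (fun p : Fin n × Fin n => p.1 ≤ p.2)]
  have h1 : ∑ p ∈ univ.filter (fun p : Fin n × Fin n => ¬ p.1 ≤ p.2), F p.1 p.2 =
      ∑ p ∈ univ.filter (fun p : Fin n × Fin n => p.1 ≤ p.2),
        (if p.1 = p.2 then 0 else F p.1 p.2) := by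
    rw [← sum_filter_add_sum_filter_not (univ.filter (fun p : Fin n × Fin n => p.1 ≤ p.2))
      (fun p : Fin n × Fin n => p.1 = p.2)]
    have e1 : ∑ p ∈ (univ.filter (fun p : Fin n × Fin n => p.1 ≤ p.2)).filter
        (fun p : Fin n × Fin n => p.1 = p.2), (if p.1 = p.2 then 0 else F p.1 p.2) = 0 :=
      sum_eq_zero fun p hp => by rw [if_pos (mem_filter.1 hp).2]
    rw [e1, zero_add]
    refine sum_nbij' (fun p => (p.2, p.1)) (fun p => (p.2, p.1)) ?_ ?_ ?_ ?_ ?_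
    · intro p hp
      simp only [mem_filter, mem_univ, true_and, not_le] at hp ⊢
      exact ⟨hp.le, hp.ne⟩
    · intro p hp
      simp only [mem_filter, mem_univ, true_and, not_le] at hp ⊢
      exact lt_of_le_of_ne hp.1 hp.2
    · intro p _; rfl
    · intro p _; rfl
    · intro p hp
      simp only [mem_filter, mem_univ, true_and, not_le] at hp
      rw [if_neg hp.ne]
      exact hF _ _
  rw [h1, ← sum_add_distrib]
  rw [← sum_subtype_eq_sum_filter]
  refine (sum_congr (by simp) fun p _ => ?_)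
  by_cases h : p.1.1 = p.1.2
  · rw [if_pos h, if_pos h, add_zero]
  · rw [if_neg h, if_neg h]; ring

/-- the rank over `ℝ` -/
theorem rank_real {n N : ℕ} {μ : ℝ} (g : Fin N → EuclideanSpace ℝ (Fin n))
    (hg1 : ∀ k, ‖g k‖ = 1) :
    (Matrix.of fun k l => (((‖inner ℝ (g k) (g l)‖ ^ 2 - μ ^ 2 / 2 : ℝ)) : ℝ)).rank ≤
      n * (n + 1) / 2 := by
  have hfac : (Matrix.of fun k l => (((‖inner ℝ (g k) (g l)‖ ^ 2 - μ ^ 2 / 2 : ℝ)) : ℝ)) =
      (Matrix.of fun k p => g k p.1.1 * g k p.1.2 :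
        Matrix (Fin N) {p : Fin n × Fin n // p.1 ≤ p.2} ℝ) *
      (Matrix.of fun p l => if p.1.1 = p.1.2 then g l p.1.1 * g l p.1.2 - μ ^ 2 / 2 else
        2 * (g l p.1.1 * g l p.1.2) : Matrix {p : Fin n × Fin n // p.1 ≤ p.2} (Fin N) ℝ) := by
    ext k l
    rw [Matrix.mul_apply, Matrix.of_apply]
    simp only [Matrix.of_apply]
    have e1 : ∀ u v : EuclideanSpace ℝ (Fin n), inner ℝ u v = ∑ a, u a * v a := by
      intro u v
      rw [PiLp.inner_apply]
      refine sum_congr rfl fun a _ => ?_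
      rw [RCLike.inner_apply, mul_comm]
      rfl
    have e2 := sum_pairs (fun a b => (g k a * g k b) * (g l a * g l b) -
      (g k a * g k b) * (if a = b then μ ^ 2 / 2 else 0)) (fun a b => by
        by_cases h : a = b
        · subst h; rfl
        · rw [if_neg h, if_neg (Ne.symm h)]; ring)
    have e3 : ∑ p : {p : Fin n × Fin n // p.1 ≤ p.2}, g k p.1.1 * g k p.1.2 *
        (if p.1.1 = p.1.2 then g l p.1.1 * g l p.1.2 - μ ^ 2 / 2 else
          2 * (g l p.1.1 * g l p.1.2)) =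
        ∑ p : {p : Fin n × Fin n // p.1 ≤ p.2},
          (if p.1.1 = p.1.2 then ((g k p.1.1 * g k p.1.2) * (g l p.1.1 * g l p.1.2) -
            (g k p.1.1 * g k p.1.2) * (if p.1.1 = p.1.2 then μ ^ 2 / 2 else 0)) else
            2 * ((g k p.1.1 * g k p.1.2) * (g l p.1.1 * g l p.1.2) -
            (g k p.1.1 * g k p.1.2) * (if p.1.1 = p.1.2 then μ ^ 2 / 2 else 0))) := by
      refine sum_congr rfl fun p _ => ?_
      by_cases h : p.1.1 = p.1.2
      · simp only [if_pos h]; ring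
      · simp only [if_neg h]; ring
    rw [e3, e2]
    have e4 : ∀ a, ∑ b, ((g k a * g k b) * (g l a * g l b) -
        (g k a * g k b) * (if a = b then μ ^ 2 / 2 else 0)) =
        (g k a * g l a) * ∑ b, g k b * g l b - (g k a * g k a) * (μ ^ 2 / 2) := by
      intro a
      rw [sum_sub_distrib, mul_sum]
      congr 1
      · exact sum_congr rfl fun b _ => by ring
      · simp
    rw [sum_congr rfl fun a _ => e4 a, sum_sub_distrib, ← sum_mul, ← sum_mul, ← e1, ← e1,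
      real_inner_self_eq_norm_sq, hg1, Real.norm_eq_abs, sq_abs]
    ring
  rw [hfac]
  refine (Matrix.rank_mul_le_left _ _).trans ?_
  refine (Matrix.rank_le_card_width _).trans ?_
  rw [← Fintype.card_congr (Sym2.sortEquiv (α := Fin n)), Sym2.card, Fintype.card_fin,
    Nat.choose_two_right]
  rw [mul_comm]
  simp

end Pool.Agent.H88.NW
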