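import Pool.Agent.H88.NW.TD

/-!
MP_28b514: choice of the parameters, first window.
-/

set_option autoImplicit false

namespace Pool.Agent.H88.NW

open Finset

/-- primes with a property in short intervals -/
def Short (Q : ℕ → Prop) : Prop :=
  ∀ A : ℕ, ∃ x0 : ℝ, ∀ x : ℝ, x0 ≤ x → ∃ p : ℕ, p.Prime ∧ Q p ∧
    x * (1 - 1 / Real.log x ^ A) ≤ p ∧ (p : ℝ) ≤ x

theorem Short.unif {Q : ℕ → Prop} (h : Short Q) (A : ℕ) : ∃ n0 : ℕ, ∀ n : ℕ, n0 ≤ n →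
    ∀ z δ : ℝ, 1 ≤ z → (n : ℝ) ≤ z ^ 4 → 1 / Real.log n ^ A ≤ δ →
      ∃ p : ℕ, p.Prime ∧ Q p ∧ z * (1 - δ / 32) ≤ p ∧ (p : ℝ) ≤ z := by
  obtain ⟨x0, hx0⟩ := h (A + 1)
  refine ⟨⌈(max x0 1) ^ 4⌉₊ + ⌈Real.exp (32 * 4 ^ (A + 1))⌉₊, fun n hn z δ hz1 hz hδ => ?_⟩
  have hn' : ((⌈(max x0 1) ^ 4⌉₊ + ⌈Real.exp (32 * 4 ^ (A + 1))⌉₊ : ℕ) : ℝ) ≤ n := by
    exact_mod_cast hn
  push_cast at hn'
  have h1 := Nat.le_ceil ((max x0 1) ^ 4)
  have h2 := Nat.le_ceil (Real.exp (32 * 4 ^ (A + 1)))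
  have h3 : (0 : ℝ) ≤ ⌈(max x0 1) ^ 4⌉₊ := by positivity
  have h4 : (0 : ℝ) ≤ ⌈Real.exp (32 * 4 ^ (A + 1))⌉₊ := by positivity
  have hm1 : (1 : ℝ) ≤ max x0 1 := le_max_right _ _
  have hzx : x0 ≤ z := by
    have e1 : (max x0 1) ^ 4 ≤ z ^ 4 := by linarith
    have e2 : max x0 1 ≤ z := by
      by_contra hc
      push Not at hc
      have := pow_lt_pow_left₀ hc (by linarith) (n := 4) (by norm_num)
      linarith
    exact (le_max_left _ _).trans e2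
  have hexp : Real.exp (32 * 4 ^ (A + 1)) ≤ n := by linarith
  have hn0 : (0 : ℝ) < n := lt_of_lt_of_le (Real.exp_pos _) hexp
  have hL : 32 * 4 ^ (A + 1) ≤ Real.log n := by
    rw [Real.le_log_iff_exp_le hn0]
    exact hexp
  have h4A : (0 : ℝ) < 4 ^ (A + 1) := by positivity
  have hL0 : 0 < Real.log n := by linarith
  have hlz : Real.log n / 4 ≤ Real.log z := by
    have e1 : Real.log n ≤ Real.log (z ^ 4) := Real.log_le_log hn0 hz
    rw [Real.log_pow] at e1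
    push_cast at e1
    linarith
  have hlz0 : 0 < Real.log z := by linarith
  have h5 : 1 / Real.log z ^ (A + 1) ≤ δ / 32 := by
    have e1 : (Real.log n / 4) ^ (A + 1) ≤ Real.log z ^ (A + 1) :=
      pow_le_pow_left₀ (by positivity) hlz _
    have e2 : 1 / Real.log z ^ (A + 1) ≤ 1 / (Real.log n / 4) ^ (A + 1) :=
      one_div_le_one_div_of_le (by positivity) e1
    have e3 : 1 / (Real.log n / 4) ^ (A + 1) =
        (4 ^ (A + 1) / Real.log n) * (1 / Real.log n ^ A) := by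
      rw [div_pow, pow_succ (Real.log n)]
      field_simp
    have e4 : 4 ^ (A + 1) / Real.log n ≤ 1 / 32 := by
      rw [div_le_div_iff₀ hL0 (by norm_num)]
      linarith
    have e5 : 0 < 1 / Real.log n ^ A := by positivity
    have e6 : (4 ^ (A + 1) / Real.log n) * (1 / Real.log n ^ A) ≤ 1 / 32 * δ :=
      mul_le_mul e4 hδ e5.le (by norm_num)
    linarith
  obtain ⟨p, hp, hQ, hp1, hp2⟩ := hx0 z hzx
  refine ⟨p, hp, hQ, le_trans ?_ hp1, hp2⟩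
  have : z * (1 - δ / 32) ≤ z * (1 - 1 / Real.log z ^ (A + 1)) := by
    apply mul_le_mul_of_nonneg_left _ (by linarith)
    linarith
  exact this

private theorem nw_log_pow (A : ℕ) : ∃ n0 : ℕ, ∀ n : ℕ, n0 ≤ n →
    Real.log n ^ (4 * A) ≤ n := by
  have h := Real.isLittleO_pow_log_id_atTop (n := 4 * A)
  have h1 := h.bound (show (0 : ℝ) < 1 by norm_num)
  have h2 := tendsto_natCast_atTop_atTop (R := ℝ) |>.eventually h1
  obtain ⟨n0, hn0⟩ := Filter.eventually_atTop.1 h2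
  refine ⟨n0, fun n hn => ?_⟩
  have h3 := hn0 n hn
  rw [one_mul, id, Real.norm_eq_abs, Real.norm_eq_abs, Nat.abs_cast] at h3
  exact (le_abs_self _).trans h3

private theorem nw_n1 {ρ y : ℝ} (h0 : 0 < ρ) (hy : 4 ≤ y) : 3 / 4 * y ≤ (1 + ρ / 16) * y - 1 := by
  have : 0 ≤ ρ / 16 * y := by positivity
  linarith

private theorem nw_n2 {n y Z : ℝ} (hn : 16 ≤ n) (hμn : n ≤ y ^ 2) (h : (3 / 4 * y) ^ 4 ≤ Z) :
    n ≤ Z := by
  have e3 : (16 : ℝ) * n ≤ y ^ 2 * y ^ 2 :=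
    mul_le_mul (hn.trans hμn) hμn (by linarith) (by positivity)
  have e4 : (3 / 4 * y) ^ 4 = 81 / 256 * (y ^ 2 * y ^ 2) := by ring
  linarith

private theorem nw_n3 {ρ y q : ℝ} (h0 : 0 < ρ) (h8 : ρ ≤ 1) (hy : 0 < y)
    (hq : ((1 + ρ / 16) * y - 1) * (1 - ρ / 32) ≤ q) : y ≤ q + 1 := by
  have e1 : ((1 + ρ / 16) * y - 1) * (1 - ρ / 32) + 1 =
      y + (ρ / 32 * (1 - ρ / 16)) * y + ρ / 32 := by ring
  have e2 : 0 ≤ (ρ / 32 * (1 - ρ / 16)) * y := by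
    apply mul_nonneg _ hy.le
    apply mul_nonneg
    · linarith
    · linarith
  linarith

private theorem nw_n4 {ρ δ y r n : ℝ} (h0 : 0 < ρ) (h1 : ρ ≤ 1) (h8 : δ ≤ 1 / 3) (hr0 : 0 < r)
    (R1 : r ≤ (1 + ρ / 16) * y) (hy : y ^ 2 * (1 - δ) = n) : r ^ 2 ≤ 2 * n := by
  have e1 : r ^ 2 ≤ ((1 + ρ / 16) * y) ^ 2 := pow_le_pow_left₀ hr0.le R1 2
  have e2 : (1 + ρ / 16) ^ 2 ≤ 2 * (1 - δ) := by nlinarith
  have e3 : (1 + ρ / 16) ^ 2 * y ^ 2 ≤ 2 * (1 - δ) * y ^ 2 :=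
    mul_le_mul_of_nonneg_right e2 (by positivity)
  have e4 : ((1 + ρ / 16) * y) ^ 2 = (1 + ρ / 16) ^ 2 * y ^ 2 := by ring
  rw [← hy]
  linarith

private theorem nw_n5 {n k r Y : ℝ} (hn0 : 0 < n) (hYkr : Y * (k * r) = n)
    (hr2 : r ^ 2 ≤ 2 * n) : n ≤ Y ^ 2 * (2 * k ^ 2) := by
  have e2 : Y ^ 2 * k ^ 2 * r ^ 2 ≤ Y ^ 2 * k ^ 2 * (2 * n) :=
    mul_le_mul_of_nonneg_left hr2 (by positivity)
  have e1 : n * n = Y ^ 2 * k ^ 2 * r ^ 2 := by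
    rw [← hYkr]; ring
  have e3 : n * n ≤ (Y ^ 2 * (2 * k ^ 2)) * n := by
    rw [e1]
    calc _ ≤ _ := e2
      _ = _ := by ring
  exact le_of_mul_le_mul_right e3 hn0

private theorem nw_poly {ρ : ℝ} (h0 : 0 < ρ) (h8 : ρ ≤ 1) :
    (1 + ρ / 16) ^ 2 ≤ (1 - ρ / 32) * (1 + ρ) := by
  have e1 : 0 ≤ ρ * (1 - ρ) := mul_nonneg h0.le (by linarith)
  have e3 : (1 - ρ / 32) * (1 + ρ) - (1 + ρ / 16) ^ 2 =
      9 / 256 * (ρ * (1 - ρ)) + 207 / 256 * ρ := by ring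
  linarith

private theorem nw_n6 {n k r p y ρ δ : ℝ} (h0 : 0 < ρ) (h8 : ρ ≤ 1) (hk0 : 0 < k)
    (hr0 : 0 < r) (hy0 : 0 < y) (K2 : k * (1 + ρ) ≤ (1 - δ) * (k + 1))
    (R1 : r ≤ (1 + ρ / 16) * y)
    (hy : y ^ 2 * (1 - δ) = n) (P2 : n * (1 - ρ / 32) ≤ p * (k * r)) : r ≤ p * (k + 1) := by
  by_contra hc
  push Not at hc
  have hkr : 0 < k * r := by positivity
  have e1 : p * (k + 1) * (k * r) < r * (k * r) := mul_lt_mul_of_pos_right hc hkr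
  have e2 : n * (1 - ρ / 32) * (k + 1) ≤ p * (k * r) * (k + 1) :=
    mul_le_mul_of_nonneg_right P2 (by positivity)
  have e3 : r ^ 2 ≤ ((1 + ρ / 16) * y) ^ 2 := pow_le_pow_left₀ hr0.le R1 2
  have e4 : k * r ^ 2 ≤ k * ((1 + ρ / 16) * y) ^ 2 := mul_le_mul_of_nonneg_left e3 hk0.le
  have hy2 : 0 < y ^ 2 := by positivity
  have e6 : y ^ 2 * ((1 - δ) * (k + 1) * (1 - ρ / 32)) < y ^ 2 * (k * (1 + ρ / 16) ^ 2) := by
    calc y ^ 2 * ((1 - δ) * (k + 1) * (1 - ρ / 32))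
        = n * (1 - ρ / 32) * (k + 1) := by rw [← hy]; ring
      _ ≤ p * (k * r) * (k + 1) := e2
      _ = p * (k + 1) * (k * r) := by ring
      _ < r * (k * r) := e1
      _ = k * r ^ 2 := by ring
      _ ≤ k * ((1 + ρ / 16) * y) ^ 2 := e4
      _ = _ := by ring
  have e7 : (1 - δ) * (k + 1) * (1 - ρ / 32) < k * (1 + ρ / 16) ^ 2 :=
    lt_of_mul_lt_mul_left e6 hy2.le
  have e9 : k * (1 + ρ) * (1 - ρ / 32) ≤ (1 - δ) * (k + 1) * (1 - ρ / 32) :=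
    mul_le_mul_of_nonneg_right K2 (by linarith)
  have e11 : k * (1 + ρ / 16) ^ 2 ≤ k * ((1 - ρ / 32) * (1 + ρ)) :=
    mul_le_mul_of_nonneg_left (nw_poly h0 h8) hk0.le
  have e12 : k * ((1 - ρ / 32) * (1 + ρ)) = k * (1 + ρ) * (1 - ρ / 32) := by ring
  linarith

private theorem nw_n7 {k p r : ℝ} (hk1 : 1 ≤ k) (h : p + 1 ≤ k) (hrp : r ≤ p * (k + 1)) :
    r < 2 * k ^ 2 := by
  have e1 : p * (k + 1) ≤ (k - 1) * (k + 1) := mul_le_mul_of_nonneg_right (by linarith) (by linarith)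
  have e2 : (k - 1) * (k + 1) = k ^ 2 - 1 := by ring
  have e3 : 0 ≤ k ^ 2 := by positivity
  linarith

/-- the parameters `p` and `r` for given `k` -/
theorem window_core (hP : Short (fun _ => True)) (hP3 : Short (fun q => q % 4 = 3))
    (hpaley : ∀ q : ℕ, q.Prime → q % 4 = 3 → ∃ H : Matrix (Fin (q + 1)) (Fin (q + 1)) ℤ,
      (∀ i j, H i j = 1 ∨ H i j = -1) ∧
      H * H.transpose = ((q + 1 : ℕ) : ℤ) • (1 : Matrix (Fin (q + 1)) (Fin (q + 1)) ℤ))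
    (A : ℕ) : ∃ n0 : ℕ, ∀ n : ℕ, n0 ≤ n → ∀ μ : ℝ, 0 < μ → 2 / 3 ≤ n * μ ^ 2 → n * μ ^ 2 ≤ 1 →
      ∀ ρ : ℝ, 1 / Real.log n ^ A ≤ ρ → ρ ≤ 1 → ∀ k : ℕ, k.Prime →
      k * (1 + ρ) ≤ n * μ ^ 2 * (k + 1) →
      ∃ N : ℕ, HasSys ℝ n N μ ∧ k * (n * (1 - ρ / 32)) ≤ (N : ℝ) := by
  obtain ⟨n1, hn1⟩ := hP.unif A
  obtain ⟨n2, hn2⟩ := hP3.unif A
  obtain ⟨n3, hn3⟩ := nw_log_pow (A + 1)
  refine ⟨n1 + n2 + n3 + 64, fun n hn μ hμ hwin0 hwin1 ρ hρ hρ1 k hk hK => ?_⟩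
  have hn64 : (64 : ℝ) ≤ n := by
    have : 64 ≤ n := by omega
    exact_mod_cast this
  have hlog := hn3 n (by omega)
  have hlogn : 4 < Real.log n := by
    rw [Real.lt_log_iff_exp_lt (by linarith)]
    have h1 := Real.exp_one_lt_d9
    have h2 : Real.exp 4 = Real.exp 1 ^ 4 := by rw [← Real.exp_nat_mul]; norm_num
    have h3 : Real.exp 1 ^ 4 < 2.7182818286 ^ 4 := pow_lt_pow_left₀ h1 (Real.exp_pos 1).le (by norm_num)
    rw [h2]
    norm_num at h3 ⊢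
    linarith
  have hLA : 0 < Real.log n ^ A := by positivity
  have hρ0 : 0 < ρ := lt_of_lt_of_le (by positivity) hρ
  obtain ⟨δ, hδ⟩ : ∃ δ : ℝ, δ = 1 - n * μ ^ 2 := ⟨_, rfl⟩
  have hδ8 : δ ≤ 1 / 3 := by linarith
  have hδ0 : 0 ≤ δ := by linarith
  have hs : μ ^ 2 * n = 1 - δ := by rw [hδ]; ring
  have K2 : k * (1 + ρ) ≤ (1 - δ) * (k + 1) := by
    have : n * μ ^ 2 = 1 - δ := by linarith
    rw [this] at hK
    exact hK
  have hkpos : 0 < k := hk.pos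
  have hk0 : (0 : ℝ) < k := by exact_mod_cast hkpos
  -- `k` is small
  have hkn : (2 * (k : ℝ) ^ 2) ^ 2 ≤ n := by
    have e1 : (k : ℝ) ≤ Real.log n ^ A := by
      have e0 : k * ρ ≤ 1 := by
        have : 0 ≤ δ * (k + 1) := by positivity
        linarith
      have e2 : (k : ℝ) * (1 / Real.log n ^ A) ≤ 1 := by
        have := mul_le_mul_of_nonneg_left hρ hk0.le
        linarith
      rw [mul_one_div, div_le_one hLA] at e2
      exact e2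
    have e3 : (k : ℝ) ^ 4 * 4 ≤ Real.log n ^ (4 * (A + 1)) := by
      have e4 : Real.log n ^ (4 * (A + 1)) = (Real.log n ^ A) ^ 4 * Real.log n ^ 4 := by ring
      rw [e4]
      apply mul_le_mul (pow_le_pow_left₀ hk0.le e1 4) _ (by norm_num) (by positivity)
      calc (4 : ℝ) ≤ 4 ^ 4 := by norm_num
        _ ≤ _ := pow_le_pow_left₀ (by norm_num) hlogn.le 4
    have e5 : (2 * (k : ℝ) ^ 2) ^ 2 = (k : ℝ) ^ 4 * 4 := by ring
    rw [e5]
    linarith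
  -- `1 / μ ≥ √n`, in the form of squares
  have hμn : (n : ℝ) ≤ (1 / μ) ^ 2 := by
    rw [one_div, inv_pow, le_inv_comm₀ (by linarith) (by positivity)]
    rw [← one_div, le_div_iff₀ (by linarith)]
    linarith
  have hμn2 : (1 / μ) ^ 2 * (1 - δ) = n := by
    rw [← hs]
    field_simp
  obtain ⟨y, hy⟩ : ∃ y : ℝ, y = 1 / μ := ⟨_, rfl⟩
  rw [← hy] at hμn hμn2
  have hy0 : 0 < y := by rw [hy]; positivity
  have hyμ : y * μ = 1 := by rw [hy]; field_simp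
  have h4y : 4 ≤ y := by
    by_contra hc
    push Not at hc
    have := pow_lt_pow_left₀ hc hy0.le (n := 2) (by norm_num)
    linarith
  -- the prime `q`
  have hX := nw_n1 hρ0 h4y
  obtain ⟨q, hq, hq4, hq1, hq2⟩ := hn2 n (by omega) ((1 + ρ / 16) * y - 1) ρ (by linarith)
    (nw_n2 (by linarith) hμn (pow_le_pow_left₀ (by positivity) hX 4)) hρ
  obtain ⟨H, hH1, hH2⟩ := hpaley q hq hq4
  obtain ⟨r, hr⟩ : ∃ r : ℝ, r = (q : ℝ) + 1 := ⟨_, rfl⟩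
  have hrc : ((q + 1 : ℕ) : ℝ) = r := by rw [hr]; push_cast; ring
  have hr0 : 0 < r := by rw [hr]; positivity
  have R1 : r ≤ (1 + ρ / 16) * y := by rw [hr]; linarith
  have R2 : y ≤ r := by
    rw [hr]
    exact nw_n3 hρ0 hρ1 hy0 hq1
  have hr2 : r ^ 2 ≤ 2 * n := nw_n4 hρ0 hρ1 hδ8 hr0 R1 hμn2
  have hnr : (n : ℝ) ≤ r ^ 2 := hμn.trans (pow_le_pow_left₀ hy0.le R2 2)
  -- the prime `p`
  obtain ⟨Y, hY⟩ : ∃ Y : ℝ, Y = n / (k * r) := ⟨_, rfl⟩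
  have hkr : 0 < (k : ℝ) * r := by positivity
  have hYkr : Y * (k * r) = n := by rw [hY]; field_simp
  have hn0 : (0 : ℝ) < n := by linarith
  have hY0 : 0 < Y := by rw [hY]; positivity
  have hY2 : (n : ℝ) ≤ Y ^ 2 * (2 * k ^ 2) := nw_n5 hn0 hYkr hr2
  have hY4 : (n : ℝ) ≤ Y ^ 4 := by
    have e1 : (n : ℝ) * n ≤ Y ^ 4 * n := by
      calc (n : ℝ) * n ≤ (Y ^ 2 * (2 * k ^ 2)) * (Y ^ 2 * (2 * k ^ 2)) :=
            mul_le_mul hY2 hY2 hn0.le (by positivity)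
        _ = Y ^ 4 * (2 * (k : ℝ) ^ 2) ^ 2 := by ring
        _ ≤ Y ^ 4 * n := mul_le_mul_of_nonneg_left hkn (by positivity)
    exact le_of_mul_le_mul_right e1 hn0
  have hY1 : 1 ≤ Y := by
    by_contra hc
    push Not at hc
    have : Y ^ 4 < 1 := pow_lt_one₀ hY0.le hc (by norm_num)
    linarith
  obtain ⟨p, hp, _, hp1, hp2⟩ := hn1 n (by omega) Y ρ hY1 hY4 hρ
  have P1 : (p : ℝ) * (k * r) ≤ n := by
    rw [← hYkr]
    exact mul_le_mul_of_nonneg_right hp2 hkr.le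
  have P2 : (n : ℝ) * (1 - ρ / 32) ≤ p * (k * r) := by
    have := mul_le_mul_of_nonneg_right hp1 hkr.le
    calc (n : ℝ) * (1 - ρ / 32) = Y * (1 - ρ / 32) * (k * r) := by rw [← hYkr]; ring
      _ ≤ _ := this
  have hrp : r ≤ p * (k + 1) := nw_n6 hρ0 hρ1 hk0 hr0 hy0 K2 R1 hμn2 P2
  have hkp : k ≤ p := by
    by_contra hc
    push Not at hc
    have e1 : (p : ℝ) + 1 ≤ k := by exact_mod_cast hc
    have e2 : (1 : ℝ) ≤ k := by exact_mod_cast hkpos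
    have e3 : r < 2 * (k : ℝ) ^ 2 := nw_n7 e2 e1 hrp
    have e4 : r ^ 2 < (2 * (k : ℝ) ^ 2) ^ 2 := pow_lt_pow_left₀ e3 hr0.le (by norm_num)
    linarith
  have hsys := td hk hp hkp (r := q + 1) (by
    have : ((q + 1 : ℕ) : ℝ) ≤ ((p * (k + 1) : ℕ) : ℝ) := by
      rw [hrc]; push_cast; exact hrp
    exact_mod_cast this) (by omega) H hH1 hH2
  refine ⟨k ^ 2 * p * (q + 1), hsys.mono ?_ le_rfl ?_, ?_⟩
  · have : (((q + 1) * k * p : ℕ) : ℝ) ≤ n := by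
      push_cast
      rw [← hr]
      linarith
    exact_mod_cast this
  · rw [hrc, div_le_iff₀ hr0]
    have : y * μ ≤ r * μ := mul_le_mul_of_nonneg_right R2 hμ.le
    linarith
  · push_cast
    rw [← hr]
    calc (k : ℝ) * (n * (1 - ρ / 32)) ≤ k * (p * (k * r)) :=
          mul_le_mul_of_nonneg_left P2 hk0.le
      _ = _ := by ring

/-- the lower bound in the first window -/
theorem window_one (hP : Short (fun _ => True)) (hP3 : Short (fun q => q % 4 = 3))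
    (hpaley : ∀ q : ℕ, q.Prime → q % 4 = 3 → ∃ H : Matrix (Fin (q + 1)) (Fin (q + 1)) ℤ,
      (∀ i j, H i j = 1 ∨ H i j = -1) ∧
      H * H.transpose = ((q + 1 : ℕ) : ℤ) • (1 : Matrix (Fin (q + 1)) (Fin (q + 1)) ℤ))
    (A : ℕ) : ∃ n0 : ℕ, ∀ n : ℕ, n0 ≤ n → ∀ μ : ℝ, 0 < μ →
      n * μ ^ 2 ≤ 1 - 1 / Real.log n ^ A →
      ∃ N : ℕ, HasSys ℝ n N μ ∧ n / (8 * (1 - n * μ ^ 2)) ≤ (N : ℝ) := by
  obtain ⟨n1, hn1⟩ := window_core hP hP3 hpaley (A + 1)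
  refine ⟨n1 + 16, fun n hn μ hμ hwin => ?_⟩
  have hn16 : (16 : ℝ) ≤ n := by
    have : 16 ≤ n := by omega
    exact_mod_cast this
  have hn0 : (0 : ℝ) < n := by linarith
  have hlogn : 2 < Real.log n := by
    rw [Real.lt_log_iff_exp_lt (by linarith)]
    have h1 := Real.exp_one_lt_d9
    have h2 : Real.exp 2 = Real.exp 1 ^ 2 := by rw [← Real.exp_nat_mul]; norm_num
    have h3 : Real.exp 1 ^ 2 < 2.7182818286 ^ 2 := pow_lt_pow_left₀ h1 (Real.exp_pos 1).le (by norm_num)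
    rw [h2]
    norm_num at h3 ⊢
    linarith
  have hLA : 0 < Real.log n ^ A := by positivity
  obtain ⟨δ, hδ⟩ : ∃ δ : ℝ, δ = 1 - n * μ ^ 2 := ⟨_, rfl⟩
  rw [← hδ]
  have hδ1 : 1 / Real.log n ^ A ≤ δ := by linarith
  have hδ0 : 0 < δ := lt_of_lt_of_le (by positivity) hδ1
  by_cases hδ8 : 1 / 8 ≤ δ
  · refine ⟨n, HasSys.basis n hμ.le, ?_⟩
    rw [div_le_iff₀ (by linarith)]
    have := mul_le_mul_of_nonneg_left hδ8 (show (0 : ℝ) ≤ n by positivity)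
    linarith
  push Not at hδ8
  -- the prime `k`
  have hm1 : 1 ≤ ⌊1 / (4 * δ)⌋₊ := by
    apply Nat.le_floor
    rw [Nat.cast_one, le_div_iff₀ (by linarith)]
    linarith
  obtain ⟨k, hk, hmk, hk2⟩ := Nat.exists_prime_lt_and_le_two_mul ⌊1 / (4 * δ)⌋₊ (by omega)
  have hkpos : 0 < k := hk.pos
  have hk0 : (0 : ℝ) < k := by exact_mod_cast hkpos
  have K1 : 1 ≤ 4 * δ * k := by
    have e1 : 1 / (4 * δ) < (⌊1 / (4 * δ)⌋₊ : ℝ) + 1 := Nat.lt_floor_add_one _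
    have e2 : ((⌊1 / (4 * δ)⌋₊ + 1 : ℕ) : ℝ) ≤ k := by exact_mod_cast hmk
    push_cast at e2
    have e3 : 1 / (4 * δ) < k := by linarith
    rw [div_lt_iff₀ (by linarith)] at e3
    linarith
  have K2 : 2 * δ * k ≤ 1 := by
    have e1 : (⌊1 / (4 * δ)⌋₊ : ℝ) ≤ 1 / (4 * δ) := Nat.floor_le (by positivity)
    have e2 : (k : ℝ) ≤ ((2 * ⌊1 / (4 * δ)⌋₊ : ℕ) : ℝ) := by exact_mod_cast hk2
    push_cast at e2
    have e3 : (k : ℝ) ≤ 2 * (1 / (4 * δ)) := by linarith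
    have e4 : 2 * (1 / (4 * δ)) * (2 * δ) = 1 := by field_simp; norm_num
    have e5 : (k : ℝ) * (2 * δ) ≤ 2 * (1 / (4 * δ)) * (2 * δ) :=
      mul_le_mul_of_nonneg_right e3 (by linarith)
    linarith
  obtain ⟨N, hN, hN'⟩ := hn1 n (by omega) μ hμ (by linarith) (by linarith) (δ / 2) (by
      have e1 : 1 / Real.log n ^ (A + 1) = 1 / Real.log n ^ A * (1 / Real.log n) := by
        rw [pow_succ, one_div_mul_one_div]
      have e2 : 1 / Real.log n ≤ 1 / 2 := one_div_le_one_div_of_le (by norm_num) hlogn.le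
      rw [e1]
      calc 1 / Real.log n ^ A * (1 / Real.log n) ≤ δ * (1 / 2) :=
            mul_le_mul hδ1 e2 (by positivity) hδ0.le
        _ = _ := by ring) (by linarith) k hk (by
      have e1 : n * μ ^ 2 = 1 - δ := by linarith
      rw [e1]
      have e2 : (1 - δ) * ((k : ℝ) + 1) = k + 1 - δ * k - δ := by ring
      rw [e2]
      linarith)
  refine ⟨N, hN, ?_⟩
  rw [div_le_iff₀ (by positivity)]
  have e1 : (k : ℝ) * (n * (1 - δ / 2 / 32)) * (8 * δ) ≤ N * (8 * δ) :=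
    mul_le_mul_of_nonneg_right hN' (by positivity)
  have e2 : (n : ℝ) * (1 / 2) ≤ n * (1 - δ / 2 / 32) := mul_le_mul_of_nonneg_left (by linarith) hn0.le
  have e3 : (n : ℝ) * (1 / 2) * (4 * δ * k) ≤ n * (1 - δ / 2 / 32) * (4 * δ * k) :=
    mul_le_mul_of_nonneg_right e2 (by positivity)
  have e4 : (n : ℝ) * (1 / 2) * 1 ≤ n * (1 / 2) * (4 * δ * k) :=
    mul_le_mul_of_nonneg_left K1 (by positivity)
  linarith

/-- asymptotically sharp lower bound at the end of the first window -/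
theorem window_sharp (hP : Short (fun _ => True)) (hP3 : Short (fun q => q % 4 = 3))
    (hpaley : ∀ q : ℕ, q.Prime → q % 4 = 3 → ∃ H : Matrix (Fin (q + 1)) (Fin (q + 1)) ℤ,
      (∀ i j, H i j = 1 ∨ H i j = -1) ∧
      H * H.transpose = ((q + 1 : ℕ) : ℤ) • (1 : Matrix (Fin (q + 1)) (Fin (q + 1)) ℤ))
    (γ : ℝ) (hγ : 0 < γ) : ∃ η : ℝ, 0 < η ∧ ∀ A : ℕ, ∃ n0 : ℕ, ∀ n : ℕ, n0 ≤ n →
      ∀ μ : ℝ, 0 < μ → n * μ ^ 2 ≤ 1 - 1 / Real.log n ^ A → 1 - η ≤ n * μ ^ 2 →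
      ∃ N : ℕ, HasSys ℝ n N μ ∧ (1 - γ) * (n / (1 - n * μ ^ 2)) ≤ (N : ℝ) := by
  obtain ⟨g, hg⟩ : ∃ g : ℝ, g = min γ 1 / 8 := ⟨_, rfl⟩
  have hg0 : 0 < g := by rw [hg]; positivity
  have hgγ : 8 * g ≤ γ := by rw [hg]; linarith [min_le_left γ 1]
  have hg8 : g ≤ 1 / 8 := by rw [hg]; linarith [min_le_right γ 1]
  obtain ⟨x0, hx0⟩ := hP 1
  obtain ⟨x1, hx1⟩ : ∃ x1 : ℝ, x1 = max (max x0 1) (Real.exp (1 / g)) := ⟨_, rfl⟩
  have hx1a : x0 ≤ x1 := by rw [hx1]; exact (le_max_left _ _).trans (le_max_left _ _)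
  have hx1b : 1 ≤ x1 := by rw [hx1]; exact (le_max_right _ _).trans (le_max_left _ _)
  have hx1c : Real.exp (1 / g) ≤ x1 := by rw [hx1]; exact le_max_right _ _
  refine ⟨min (1 / 8) (min g (1 / (4 * x1))), by positivity, fun A => ?_⟩
  obtain ⟨n1, hn1⟩ := window_core hP hP3 hpaley (A + 1)
  refine ⟨n1 + 3 + ⌈Real.exp (1 / g)⌉₊, fun n hn μ hμ hwin hη => ?_⟩
  obtain ⟨δ, hδ⟩ : ∃ δ : ℝ, δ = 1 - n * μ ^ 2 := ⟨_, rfl⟩
  rw [← hδ]
  have hn3 : (3 : ℝ) ≤ n := by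
    have : 3 ≤ n := by omega
    exact_mod_cast this
  have hn0 : (0 : ℝ) < n := by linarith
  have hlogn : 1 / g ≤ Real.log n := by
    rw [Real.le_log_iff_exp_le hn0]
    have h1 := Nat.le_ceil (Real.exp (1 / g))
    have h2 : ((⌈Real.exp (1 / g)⌉₊ : ℕ) : ℝ) ≤ n := by
      have : ⌈Real.exp (1 / g)⌉₊ ≤ n := by omega
      exact_mod_cast this
    linarith
  have hL0 : 0 < Real.log n := lt_of_lt_of_le (by positivity) hlogn
  have hδ1 : 1 / Real.log n ^ A ≤ δ := by linarith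
  have hδ0 : 0 < δ := lt_of_lt_of_le (by positivity) hδ1
  have hδη : δ ≤ min (1 / 8) (min g (1 / (4 * x1))) := by linarith
  have hδ8 : δ ≤ 1 / 8 := hδη.trans (min_le_left _ _)
  have hδg : δ ≤ g := hδη.trans ((min_le_right _ _).trans (min_le_left _ _))
  have hδx : δ * (4 * x1) ≤ 1 := by
    have h1 : δ ≤ 1 / (4 * x1) := hδη.trans ((min_le_right _ _).trans (min_le_right _ _))
    rw [le_div_iff₀ (by linarith)] at h1
    exact h1
  -- the prime `k`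
  obtain ⟨x, hx⟩ : ∃ x : ℝ, x = (1 - g) / δ - 1 := ⟨_, rfl⟩
  have hxδ : (x + 1) * δ = 1 - g := by
    rw [hx]
    field_simp
    ring
  have hxx1 : x1 ≤ x := by
    by_contra hc
    push Not at hc
    have h1 : (x + 1) * δ < (x1 + 1) * δ := mul_lt_mul_of_pos_right (by linarith) hδ0
    have h2 : (x1 + 1) * δ ≤ 2 * x1 * δ := mul_le_mul_of_nonneg_right (by linarith) hδ0.le
    linarith
  have hx0' : 0 < x := by linarith
  obtain ⟨k, hk, _, hk1, hk2⟩ := hx0 x (by linarith)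
  have hlogx : 1 / g ≤ Real.log x := by
    rw [Real.le_log_iff_exp_le hx0']
    linarith
  have hk1' : x * (1 - g) ≤ k := by
    refine le_trans ?_ hk1
    apply mul_le_mul_of_nonneg_left _ hx0'.le
    rw [pow_one]
    have h1 : 1 / Real.log x ≤ 1 / (1 / g) := one_div_le_one_div_of_le (by positivity) hlogx
    rw [one_div_one_div] at h1
    linarith
  have hkpos : 0 < k := hk.pos
  have hk0 : (0 : ℝ) < k := by exact_mod_cast hkpos
  have hkδ : (k : ℝ) * δ ≤ 1 - g - δ := by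
    have h1 : (k : ℝ) * δ ≤ x * δ := mul_le_mul_of_nonneg_right hk2 hδ0.le
    linarith
  have hkδ2 : 1 - 3 * g ≤ (k : ℝ) * δ := by
    have h1 : x * (1 - g) * δ ≤ k * δ := mul_le_mul_of_nonneg_right hk1' hδ0.le
    have h2 : x * (1 - g) * δ = (1 - g) * (1 - g - δ) := by
      have : x * δ = 1 - g - δ := by linarith
      calc x * (1 - g) * δ = (1 - g) * (x * δ) := by ring
        _ = _ := by rw [this]
    have h3 : (1 - g) * (1 - g - g) ≤ (1 - g) * (1 - g - δ) :=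
      mul_le_mul_of_nonneg_left (by linarith) (by linarith)
    have h4 : (1 - g) * (1 - g - g) = 1 - 3 * g + 2 * g ^ 2 := by ring
    have h5 : 0 ≤ g ^ 2 := by positivity
    linarith
  obtain ⟨N, hN, hN'⟩ := hn1 n (by omega) μ hμ (by linarith) (by linarith) (g * δ) (by
      have e1 : 1 / Real.log n ^ (A + 1) = 1 / Real.log n ^ A * (1 / Real.log n) := by
        rw [pow_succ, one_div_mul_one_div]
      have e2 : 1 / Real.log n ≤ 1 / (1 / g) := one_div_le_one_div_of_le (by positivity) hlogn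
      rw [one_div_one_div] at e2
      rw [e1]
      calc 1 / Real.log n ^ A * (1 / Real.log n) ≤ δ * g :=
            mul_le_mul hδ1 e2 (by positivity) hδ0.le
        _ = _ := by ring) (by nlinarith) k hk (by
      have e1 : n * μ ^ 2 = 1 - δ := by linarith
      rw [e1]
      have e2 : (1 - δ) * ((k : ℝ) + 1) = k + 1 - k * δ - δ := by ring
      have e3 : (k : ℝ) * (1 + g * δ) = k + g * (k * δ) := by ring
      have e4 : g * (k * δ) ≤ g * 1 := mul_le_mul_of_nonneg_left (by linarith) hg0.le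
      rw [e2, e3]
      linarith)
  refine ⟨N, hN, ?_⟩
  rw [mul_div_assoc', div_le_iff₀ hδ0]
  have e1 : (k : ℝ) * (n * (1 - g * δ / 32)) * δ ≤ N * δ :=
    mul_le_mul_of_nonneg_right hN' hδ0.le
  have e2 : n * (1 - g * δ / 32) * (1 - 3 * g) ≤ n * (1 - g * δ / 32) * (k * δ) := by
    apply mul_le_mul_of_nonneg_left hkδ2
    apply mul_nonneg hn0.le
    nlinarith
  have e3 : (1 - γ) ≤ (1 - g * δ / 32) * (1 - 3 * g) := by
    have h1 : g * δ ≤ g * 1 := mul_le_mul_of_nonneg_left (by linarith) hg0.le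
    have h2 : 0 ≤ g * δ / 32 * (3 * g) := by positivity
    have h3 : (1 - g * δ / 32) * (1 - 3 * g) = 1 - 3 * g - g * δ / 32 + g * δ / 32 * (3 * g) := by
      ring
    rw [h3]
    linarith
  have e4 : n * (1 - γ) ≤ n * ((1 - g * δ / 32) * (1 - 3 * g)) :=
    mul_le_mul_of_nonneg_left e3 hn0.le
  linarith

end Pool.Agent.H88.NW
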