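import Pool.Agent.H88.NW.Win1
import Pool.Agent.H88.NW.Upper

/-!
MP_28b514: second window and assembly.
-/

set_option autoImplicit false

namespace Pool.Agent.H88.NW

open Finset

private theorem nw_prime (hP : Short (fun _ => True)) (A : ℕ) (t : ℕ) (ht1 : 1 ≤ t)
    (ht2 : t ≤ 2) {g : ℝ} (hg : 0 < g) (hg1 : g ≤ 1) : ∃ n0 : ℕ, ∀ n : ℕ, n0 ≤ n → ∀ μ : ℝ, 0 < μ →
      t + 1 / Real.log n ^ A ≤ n * μ ^ 2 →
      ∃ p : ℕ, p.Prime ∧ p ≠ 2 ∧ t * p ≤ n ∧ 1 / √p ≤ μ ∧ (n : ℝ) / t * (1 - g) ≤ p := by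
  obtain ⟨n1, hn1⟩ := hP.unif (A + 1)
  refine ⟨n1 + 16 + ⌈Real.exp (1 / g)⌉₊, fun n hn μ hμ hwin => ?_⟩
  have hn16 : (16 : ℝ) ≤ n := by
    have : 16 ≤ n := by omega
    exact_mod_cast this
  have hn0 : (0 : ℝ) < n := by linarith
  have hlogn : 1 < Real.log n := by
    rw [Real.lt_log_iff_exp_lt (by linarith)]
    have := Real.exp_one_lt_d9
    linarith
  have hlogg : 1 / g ≤ Real.log n := by
    rw [Real.le_log_iff_exp_le hn0]
    have h1 := Nat.le_ceil (Real.exp (1 / g))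
    have h2 : ((⌈Real.exp (1 / g)⌉₊ : ℕ) : ℝ) ≤ n := by
      have : ⌈Real.exp (1 / g)⌉₊ ≤ n := by omega
      exact_mod_cast this
    linarith
  obtain ⟨δ, hδ⟩ : ∃ δ : ℝ, δ = 1 / Real.log n ^ (A + 1) := ⟨_, rfl⟩
  have hδ0 : 0 < δ := by rw [hδ]; positivity
  have hLA : 1 ≤ Real.log n ^ A := one_le_pow₀ hlogn.le
  have hδA : δ ≤ 1 / Real.log n ^ A := by
    rw [hδ]
    apply one_div_le_one_div_of_le (by positivity)
    exact pow_le_pow_right₀ hlogn.le (by omega)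
  have hδg : δ ≤ g := by
    have h1 : 1 / g ≤ Real.log n ^ (A + 1) := by
      rw [pow_succ]
      nlinarith
    have h2 := one_div_le_one_div_of_le (by positivity) h1
    rw [one_div_one_div] at h2
    rw [hδ]
    exact h2
  have ht1' : (1 : ℝ) ≤ t := by exact_mod_cast ht1
  have ht2' : (t : ℝ) ≤ 2 := by exact_mod_cast ht2
  have ht0 : (0 : ℝ) < t := by linarith
  have hz : (n : ℝ) / 2 ≤ n / t := div_le_div_of_nonneg_left (by linarith) ht0 ht2'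
  obtain ⟨p, hp, _, hp1, hp2⟩ := hn1 n (by omega) (n / t) δ (by linarith) (by
    have e1 : ((n : ℝ) / 2) ^ 4 ≤ (n / t) ^ 4 := pow_le_pow_left₀ (by positivity) hz 4
    have e2 : ((n : ℝ) / 2) ^ 4 = n * (n ^ 3 / 16) := by ring
    have e3 : (16 : ℝ) ^ 3 ≤ n ^ 3 := pow_le_pow_left₀ (by norm_num) hn16 3
    have e4 : (n : ℝ) * 1 ≤ n * (n ^ 3 / 16) :=
      mul_le_mul_of_nonneg_left (by linarith) (by linarith)
    linarith) hδ.symm.le
  have hpn : (n : ℝ) / 2 * (31 / 32) ≤ p := by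
    have e1 : (n : ℝ) / t * (31 / 32) ≤ n / t * (1 - δ / 32) :=
      mul_le_mul_of_nonneg_left (by linarith) (by positivity)
    linarith
  have hp0 : (0 : ℝ) < p := by linarith
  refine ⟨p, hp, ?_, ?_, ?_, ?_⟩
  · rintro rfl
    push_cast at hpn
    linarith
  · have e1 : (t : ℝ) * p ≤ n := by
      have := mul_le_mul_of_nonneg_left hp2 ht0.le
      have e2 : (t : ℝ) * (n / t) = n := by field_simp
      linarith
    exact_mod_cast e1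
  · have hs : 0 < √(p : ℝ) := Real.sqrt_pos.2 hp0
    rw [div_le_iff₀ hs]
    have e1 : (1 : ℝ) ≤ (μ * √p) ^ 2 := by
      rw [mul_pow, Real.sq_sqrt hp0.le]
      have e2 : (n : ℝ) * (1 - δ / 32) ≤ t * p := by
        have := mul_le_mul_of_nonneg_left hp1 ht0.le
        have e3 : (t : ℝ) * (n / t * (1 - δ / 32)) = n * (1 - δ / 32) := by field_simp
        linarith
      have e4 : (t + δ) * (n * (1 - δ / 32)) ≤ (n * μ ^ 2) * (t * p) := by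
        apply mul_le_mul (by linarith) e2 _ (by positivity)
        apply mul_nonneg
        · linarith
        · linarith
      have e5 : (t : ℝ) ≤ (t + δ) * (1 - δ / 32) := by
        have e6 : (t + δ) * (1 - δ / 32) = t + δ * (1 - t / 32 - δ / 32) := by ring
        have e7 : 0 ≤ δ * (1 - t / 32 - δ / 32) := mul_nonneg hδ0.le (by linarith)
        linarith
      have e8 : (n : ℝ) * t ≤ n * ((t + δ) * (1 - δ / 32)) :=
        mul_le_mul_of_nonneg_left e5 (by linarith)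
      have e9 : ((n : ℝ) * t) * 1 ≤ (n * t) * (μ ^ 2 * p) := by
        calc ((n : ℝ) * t) * 1 = n * t := by ring
          _ ≤ n * ((t + δ) * (1 - δ / 32)) := e8
          _ = (t + δ) * (n * (1 - δ / 32)) := by ring
          _ ≤ (n * μ ^ 2) * (t * p) := e4
          _ = _ := by ring
      exact le_of_mul_le_mul_left e9 (by positivity)
    by_contra hc
    push Not at hc
    have := pow_lt_one₀ (show 0 ≤ μ * √p by positivity) hc (n := 2) (by norm_num)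
    linarith
  · refine le_trans ?_ hp1
    apply mul_le_mul_of_nonneg_left (by linarith) (by positivity)

private theorem nw_up {N n v w b ε γ : ℝ} (hε : 0 < ε) (hγ : 0 < γ) (hn : 0 < n) (hN : 0 ≤ N)
    (hb : b ≤ 2) (hv : ε ≤ v) (hw : n * w ≤ 6) (h : N * (v - w) ≤ n * (n + b))
    (hnn : 2 + (1 + γ) * (6 / ε) ≤ n * γ) : N ≤ (1 + γ) * (n ^ 2 / v) := by
  have hv0 : 0 < v := by linarith
  obtain ⟨κ, hκ⟩ : ∃ κ : ℝ, κ = n - 6 / ε := ⟨_, rfl⟩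
  have h6 : 0 < 6 / ε := by positivity
  have e0 : n + 2 ≤ (1 + γ) * κ := by
    rw [hκ]
    linarith
  have hκ0 : 0 < κ := by
    by_contra hc
    push Not at hc
    have : (1 + γ) * κ ≤ 0 := mul_nonpos_of_nonneg_of_nonpos (by linarith) hc
    linarith
  have e1 : v * κ ≤ n * (v - w) := by
    have h1 : v * κ = n * v - v * (6 / ε) := by rw [hκ]; ring
    have h2 : ε * (6 / ε) ≤ v * (6 / ε) := mul_le_mul_of_nonneg_right hv h6.le
    have h3 : ε * (6 / ε) = 6 := by field_simp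
    rw [h1]
    linarith
  have e2 : N * (v * κ) ≤ N * (n * (v - w)) := mul_le_mul_of_nonneg_left e1 hN
  have e3 : N * (n * (v - w)) ≤ n * (n * (n + b)) := by
    calc N * (n * (v - w)) = n * (N * (v - w)) := by ring
      _ ≤ _ := mul_le_mul_of_nonneg_left h hn.le
  have e4 : n * (n * (n + b)) ≤ n * (n * ((1 + γ) * κ)) := by
    apply mul_le_mul_of_nonneg_left _ hn.le
    apply mul_le_mul_of_nonneg_left _ hn.le
    linarith
  have e5 : (N * v) * κ ≤ ((1 + γ) * n ^ 2) * κ := by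
    calc (N * v) * κ = N * (v * κ) := by ring
      _ ≤ n * (n * ((1 + γ) * κ)) := by linarith
      _ = _ := by ring
  have e6 := le_of_mul_le_mul_right e5 hκ0
  rw [mul_div_assoc', le_div_iff₀ hv0]
  exact e6

private theorem nw_g {γ : ℝ} (hγ : 0 < γ) : ∃ g : ℝ, 0 < g ∧ g ≤ 1 ∧ 1 - γ ≤ (1 - g) ^ 2 := by
  refine ⟨min (γ / 2) 1, by positivity, min_le_right _ _, ?_⟩
  have h1 := min_le_left (γ / 2) 1
  have h2 : (1 - min (γ / 2) 1) ^ 2 = 1 - 2 * min (γ / 2) 1 + min (γ / 2) 1 ^ 2 := by ring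
  have h3 : 0 ≤ min (γ / 2) 1 ^ 2 := by positivity
  rw [h2]
  linarith

/-- assembly -/
theorem main_of (hP : Short (fun _ => True)) (hP3 : Short (fun q => q % 4 = 3))
    (hpaley : ∀ q : ℕ, q.Prime → q % 4 = 3 → ∃ H : Matrix (Fin (q + 1)) (Fin (q + 1)) ℤ,
      (∀ i j, H i j = 1 ∨ H i j = -1) ∧
      H * H.transpose = ((q + 1 : ℕ) : ℤ) • (1 : Matrix (Fin (q + 1)) (Fin (q + 1)) ℤ))
    (hgauss : ∀ p : ℕ, p.Prime → p ≠ 2 → HasSys ℂ p (p ^ 2) (1 / √p))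
    (hlevC : ∀ (n N : ℕ) (μ : ℝ), HasSys ℂ n N μ → (n : ℝ) * μ ^ 2 ≤ 2 → 4 ≤ n →
      (N : ℝ) * (2 - (n + 1) * μ ^ 2) ≤ n * (n + 1))
    (hlevR : ∀ (n N : ℕ) (μ : ℝ), HasSys ℝ n N μ → (n : ℝ) * μ ^ 2 ≤ 3 → 4 ≤ n →
      (N : ℝ) * (3 - (n + 2) * μ ^ 2) ≤ n * (n + 2))
    (γ : ℝ) (hγ : 0 < γ) : ∃ η : ℝ, 0 < η ∧ ∀ (A : ℕ) (ε : ℝ), 0 < ε → ∃ n0 : ℕ,
      ∀ n : ℕ, n0 ≤ n → ∀ μ : ℝ, 0 < μ →
      (n * μ ^ 2 ≤ 1 - 1 / Real.log n ^ A →
        1 / 8 * (n / (1 - n * μ ^ 2)) ≤ NN ℝ n μ ∧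
        (1 - η ≤ n * μ ^ 2 → (1 - γ) * (n / (1 - n * μ ^ 2)) ≤ NN ℝ n μ) ∧
        NN ℝ n μ ≤ NN ℂ n μ ∧ (NN ℂ n μ : ℝ) ≤ n / (1 - n * μ ^ 2)) ∧
      (1 + 1 / Real.log n ^ A ≤ n * μ ^ 2 → n * μ ^ 2 ≤ 2 - ε →
        (1 - γ) * (n : ℝ) ^ 2 ≤ NN ℂ n μ ∧
        (NN ℂ n μ : ℝ) ≤ (1 + γ) * (n ^ 2 / (2 - n * μ ^ 2))) ∧
      (2 + 1 / Real.log n ^ A ≤ n * μ ^ 2 → n * μ ^ 2 ≤ 3 - ε →
        (1 - γ) * ((n : ℝ) ^ 2 / 2) ≤ NN ℝ n μ ∧
        (NN ℝ n μ : ℝ) ≤ (1 + γ) * (n ^ 2 / (3 - n * μ ^ 2))) := by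
  obtain ⟨η, hη, hsharp⟩ := window_sharp hP hP3 hpaley γ hγ
  obtain ⟨g, hg0, hg1, hgγ⟩ := nw_g hγ
  refine ⟨η, hη, fun A ε hε => ?_⟩
  obtain ⟨n0, hn0'⟩ := hsharp A
  obtain ⟨n1, hn1⟩ := window_one hP hP3 hpaley A
  obtain ⟨n2, hn2⟩ := nw_prime hP A 1 le_rfl (by norm_num) hg0 hg1
  obtain ⟨n3, hn3⟩ := nw_prime hP A 2 (by norm_num) le_rfl hg0 hg1
  refine ⟨n0 + n1 + n2 + n3 + 16 + ⌈(2 + (1 + γ) * (6 / ε)) / γ⌉₊, fun n hn μ hμ => ?_⟩
  have hn16 : (16 : ℝ) ≤ n := by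
    have : 16 ≤ n := by omega
    exact_mod_cast this
  have hnn : 2 + (1 + γ) * (6 / ε) ≤ n * γ := by
    have h1 := Nat.le_ceil ((2 + (1 + γ) * (6 / ε)) / γ)
    have h2 : ((⌈(2 + (1 + γ) * (6 / ε)) / γ⌉₊ : ℕ) : ℝ) ≤ n := by
      have : ⌈(2 + (1 + γ) * (6 / ε)) / γ⌉₊ ≤ n := by omega
      exact_mod_cast this
    have h3 := h1.trans h2
    rw [div_le_iff₀ hγ] at h3
    exact h3
  have hn0 : (0 : ℝ) < n := by linarith
  have hlogn : 1 < Real.log n := by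
    rw [Real.lt_log_iff_exp_lt hn0]
    have := Real.exp_one_lt_d9
    linarith
  have hLA : 0 < 1 / Real.log n ^ A := by positivity
  refine ⟨fun h => ?_, fun h h' => ?_, fun h h' => ?_⟩
  · have hpos : 0 < 1 - n * μ ^ 2 := by linarith
    have hupR : ∀ N : ℕ, HasSys ℝ n N μ → (N : ℝ) ≤ n / (1 - n * μ ^ 2) := fun N hN => by
      rw [le_div_iff₀ hpos]
      exact welch hN
    have hupC : ∀ N : ℕ, HasSys ℂ n N μ → (N : ℝ) ≤ n / (1 - n * μ ^ 2) := fun N hN => by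
      rw [le_div_iff₀ hpos]
      exact welch hN
    refine ⟨?_, fun h1 => ?_, ?_, NN_le hupC⟩
    · obtain ⟨N, hN, hN'⟩ := hn1 n (by omega) μ hμ h
      have h1 : (N : ℝ) ≤ NN ℝ n μ := by exact_mod_cast le_NN hN hupR
      have h2 : 1 / 8 * ((n : ℝ) / (1 - n * μ ^ 2)) = n / (8 * (1 - n * μ ^ 2)) := by
        rw [one_div, mul_comm, ← div_eq_mul_inv, div_div, mul_comm (8 : ℝ)]
      rw [h2]
      linarith
    · obtain ⟨N, hN, hN'⟩ := hn0' n (by omega) μ hμ h h1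
      have h1 : (N : ℝ) ≤ NN ℝ n μ := by exact_mod_cast le_NN hN hupR
      linarith
    · have hbd : BddAbove {M : ℕ | HasSys ℝ n M μ} :=
        ⟨⌊(n : ℝ) / (1 - n * μ ^ 2)⌋₊, fun M hM => Nat.le_floor (hupR M hM)⟩
      have hmem := Nat.sSup_mem (s := {M : ℕ | HasSys ℝ n M μ}) ⟨0, HasSys.zero n⟩ hbd
      exact le_NN (HasSys.toComplex hmem) hupC
  · have hup : ∀ N : ℕ, HasSys ℂ n N μ → (N : ℝ) ≤ (1 + γ) * (n ^ 2 / (2 - n * μ ^ 2)) :=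
      fun N hN => by
        have e1 := hlevC n N μ hN (by linarith) (by omega)
        refine nw_up (w := μ ^ 2) (b := 1) hε hγ hn0 (by positivity) (by norm_num) (by linarith)
          (by linarith) ?_ hnn
        calc (N : ℝ) * (2 - n * μ ^ 2 - μ ^ 2) = N * (2 - (n + 1) * μ ^ 2) := by ring
          _ ≤ _ := e1
    obtain ⟨p, hp, hp2, hpn, hpμ, hpN⟩ := hn2 n (by omega) μ hμ (by
      rw [Nat.cast_one]; exact h)
    have hN : HasSys ℂ n (p ^ 2) μ := (hgauss p hp hp2).mono (by omega) le_rfl hpμ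
    refine ⟨?_, NN_le hup⟩
    have h1 : ((p ^ 2 : ℕ) : ℝ) ≤ NN ℂ n μ := by exact_mod_cast le_NN hN hup
    rw [Nat.cast_one, div_one] at hpN
    have h2 : ((n : ℝ) * (1 - g)) ^ 2 ≤ (p : ℝ) ^ 2 :=
      pow_le_pow_left₀ (mul_nonneg hn0.le (by linarith)) hpN 2
    have h3 : (1 - γ) * (n : ℝ) ^ 2 ≤ (1 - g) ^ 2 * n ^ 2 :=
      mul_le_mul_of_nonneg_right hgγ (by positivity)
    have h4 : ((n : ℝ) * (1 - g)) ^ 2 = (1 - g) ^ 2 * n ^ 2 := by ring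
    push_cast at h1
    linarith
  · have hup : ∀ N : ℕ, HasSys ℝ n N μ → (N : ℝ) ≤ (1 + γ) * (n ^ 2 / (3 - n * μ ^ 2)) :=
      fun N hN => by
        have e1 := hlevR n N μ hN (by linarith) (by omega)
        refine nw_up (w := 2 * μ ^ 2) (b := 2) hε hγ hn0 (by positivity) (by norm_num)
          (by linarith) (by linarith) ?_ hnn
        calc (N : ℝ) * (3 - n * μ ^ 2 - 2 * μ ^ 2) = N * (3 - (n + 2) * μ ^ 2) := by ring
          _ ≤ _ := e1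
    obtain ⟨p, hp, hp2, hpn, hpμ, hpN⟩ := hn3 n (by omega) μ hμ (by
      push_cast; exact h)
    have hN : HasSys ℝ n (2 * p ^ 2) μ :=
      ((hgauss p hp hp2).toReal2 (by positivity)).mono hpn le_rfl hpμ
    refine ⟨?_, NN_le hup⟩
    have h1 : ((2 * p ^ 2 : ℕ) : ℝ) ≤ NN ℝ n μ := by exact_mod_cast le_NN hN hup
    push_cast at hpN h1
    have h2 : ((n : ℝ) / 2 * (1 - g)) ^ 2 ≤ (p : ℝ) ^ 2 :=
      pow_le_pow_left₀ (mul_nonneg (by positivity) (by linarith)) hpN 2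
    have h3 : (1 - γ) * (n : ℝ) ^ 2 ≤ (1 - g) ^ 2 * n ^ 2 :=
      mul_le_mul_of_nonneg_right hgγ (by positivity)
    have h4 : ((n : ℝ) / 2 * (1 - g)) ^ 2 = (1 - g) ^ 2 * n ^ 2 / 4 := by ring
    linarith

end Pool.Agent.H88.NW
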